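import Pool.Agent.H71.FD.Dens

/-!
# FD splitting, module 4: upper density bounds the Dirichlet sum, with the exact constant

`ud_sum`: if `G` has upper density at most `e` (logarithmic weights) then for every `η > e`, `η ≥ 0`
`∑_(p ∈ G) p^(-s) ≤ η log (1/(s-1)) + C` for `1 < s < 2`. Hence a set with
`δ log (1/(s-1)) - C ≤ ∑_(p ∈ G) p^(-s)` has upper density at least `δ` (`not_UD_of_sum`).
-/

set_option autoImplicit false

namespace Pool.Agent.H24.FD

open Finset Filter

open Pool.Agent.H71.FD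

theorem sum_rpow_le {t : ℝ} (ht : 1 < t) (N : ℕ) : ∑ n ∈ Ioc 1 N, ((n : ℕ) : ℝ) ^ (-t) ≤ 1 / (t - 1) := by
  rcases Nat.lt_or_ge N 1 with hN | hN
  · have h0 : Ioc 1 N = ∅ := by
      apply Finset.Ioc_eq_empty
      omega
    rw [h0, Finset.sum_empty]
    exact div_nonneg zero_le_one (by linarith)
  have h1 : ∑ n ∈ Ioc 1 N, ((n : ℕ) : ℝ) ^ (-t) = ∑ i ∈ Ico 1 N, (((i + 1 : ℕ)) : ℝ) ^ (-t) := by
    have h2 := Finset.sum_Ico_add' (fun n : ℕ => ((n : ℕ) : ℝ) ^ (-t)) 1 N 1
    rw [h2]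
    refine Finset.sum_congr ?_ fun _ _ => rfl
    ext n
    simp only [Finset.mem_Ioc, Finset.mem_Ico]
    omega
  have hanti : AntitoneOn (fun x : ℝ => x ^ (-t)) (Set.Icc ((1 : ℕ) : ℝ) (N : ℝ)) := by
    intro x hx y _ hxy
    have hx1 : (1 : ℝ) ≤ x := by simpa using hx.1
    exact Real.rpow_le_rpow_of_nonpos (by linarith) hxy (by linarith)
  have h3 := AntitoneOn.sum_le_integral_Ico (f := fun x : ℝ => x ^ (-t)) hN hanti
  rw [h1]
  refine h3.trans ?_
  have hN1 : (1 : ℝ) ≤ N := by exact_mod_cast hN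
  rw [integral_rpow]
  · have h4 : (0 : ℝ) ≤ (N : ℝ) ^ (-t + 1) := Real.rpow_nonneg (by linarith) _
    have h5 : (((N : ℝ) ^ (-t + 1) - ((1 : ℕ) : ℝ) ^ (-t + 1)) / (-t + 1)) =
        (1 - (N : ℝ) ^ (-t + 1)) / (t - 1) := by
      rw [Nat.cast_one, Real.one_rpow, ← neg_div_neg_eq]
      congr 1 <;> ring
    rw [h5]
    exact div_le_div_of_nonneg_right (by linarith) (by linarith)
  · right
    refine ⟨by intro h; linarith, ?_⟩
    rw [Set.uIcc_of_le (by simpa using hN1)]
    intro h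
    have := h.1
    norm_num at this

theorem sum_log_le {s : ℝ} (hs : 1 < s) (hs2 : s ≤ 2) (N : ℕ) :
    ∑ n ∈ Ioc 1 N, ((n : ℕ) : ℝ) ^ (-s) / Real.log n ≤ Real.log (1 / (s - 1)) + 1 / Real.log 2 := by
  set H : ℝ → ℝ := fun t => ∑ n ∈ Ioc 1 N, ((n : ℕ) : ℝ) ^ (-t) / Real.log n + Real.log (t - 1) with hH
  have hder : ∀ t : ℝ, 1 < t → HasDerivAt H
      (∑ n ∈ Ioc 1 N, (-((n : ℕ) : ℝ) ^ (-t)) + 1 / (t - 1)) t := by
    intro t ht
    apply HasDerivAt.add
    · apply HasDerivAt.fun_sum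
      intro n hn
      have hn1 : 1 < n := (Finset.mem_Ioc.1 hn).1
      have hn0 : (0 : ℝ) < n := by exact_mod_cast (by omega : 0 < n)
      have hlog : 0 < Real.log n := Real.log_pos (by exact_mod_cast hn1)
      have h1 : HasDerivAt (fun t : ℝ => ((n : ℕ) : ℝ) ^ (-t)) (-(Real.log n * ((n : ℕ) : ℝ) ^ (-t))) t := by
        have h2 := (hasDerivAt_neg t).const_rpow hn0
        have h3 : Real.log ((n : ℕ) : ℝ) * (-1) * ((n : ℕ) : ℝ) ^ (-t) = -(Real.log n * ((n : ℕ) : ℝ) ^ (-t)) := by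
          ring
        rw [h3] at h2
        exact h2
      have h4 := h1.div_const (Real.log n)
      have h5 : -(Real.log n * ((n : ℕ) : ℝ) ^ (-t)) / Real.log n = -((n : ℕ) : ℝ) ^ (-t) := by
        field_simp
      rw [h5] at h4
      exact h4
    · have h1 := ((hasDerivAt_id t).sub_const 1).log (by simp only [id]; linarith)
      simpa using h1
  have hmono : MonotoneOn H (Set.Icc s 2) := by
    apply monotoneOn_of_deriv_nonneg (convex_Icc s 2)
    · intro t ht
      exact (hder t (by linarith [ht.1])).continuousAt.continuousWithinAt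
    · intro t ht
      rw [interior_Icc] at ht
      exact (hder t (by linarith [ht.1])).differentiableAt.differentiableWithinAt
    · intro t ht
      rw [interior_Icc] at ht
      have ht1 : 1 < t := by linarith [ht.1]
      rw [(hder t ht1).deriv, Finset.sum_neg_distrib]
      have := sum_rpow_le ht1 N
      linarith
  have h1 := hmono (Set.left_mem_Icc.2 hs2) (Set.right_mem_Icc.2 hs2) hs2
  simp only [hH] at h1
  have h2 : ∑ n ∈ Ioc 1 N, ((n : ℕ) : ℝ) ^ (-2 : ℝ) / Real.log n ≤ 1 / Real.log 2 := by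
    have hl2 : 0 < Real.log 2 := Real.log_pos (by norm_num)
    calc ∑ n ∈ Ioc 1 N, ((n : ℕ) : ℝ) ^ (-2 : ℝ) / Real.log n ≤
        ∑ n ∈ Ioc 1 N, ((n : ℕ) : ℝ) ^ (-2 : ℝ) / Real.log 2 := by
          refine Finset.sum_le_sum fun n hn => ?_
          have hn1 : 1 < n := (Finset.mem_Ioc.1 hn).1
          have hn2 : (2 : ℝ) ≤ n := by exact_mod_cast hn1
          exact div_le_div_of_nonneg_left (Real.rpow_nonneg (by positivity) _) hl2
            (Real.log_le_log (by norm_num) hn2)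
      _ = (∑ n ∈ Ioc 1 N, ((n : ℕ) : ℝ) ^ (-2 : ℝ)) / Real.log 2 := by rw [Finset.sum_div]
      _ ≤ 1 / Real.log 2 := by
          apply div_le_div_of_nonneg_right _ hl2.le
          have := sum_rpow_le (t := 2) (by norm_num) N
          norm_num at this ⊢
          exact this
  have h3 : Real.log ((2 : ℝ) - 1) = 0 := by norm_num
  have h4 : Real.log (1 / (s - 1)) = -Real.log (s - 1) := by rw [one_div, Real.log_inv]
  rw [h3] at h1
  rw [h4]
  linarith

/-- Abel summation -/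
theorem abel_ineq (A w f : ℕ → ℝ) (η : ℝ) (N0 : ℕ) (hA : ∀ n, A (n + 1) = A n + w (n + 1))
    (hle : ∀ n, N0 ≤ n → A n ≤ η * n) (hf : ∀ n, N0 ≤ n → f (n + 1) ≤ f n) :
    ∀ N, N0 ≤ N → (η * N - A N) * f N - (η * N0 - A N0) * f N0 ≤ ∑ n ∈ Ioc N0 N, (η - w n) * f n := by
  intro N hN
  induction N, hN using Nat.le_induction with
  | base => simp
  | succ n hn ih =>
    rw [← Finset.insert_Ioc_right_eq_Ioc_add_one hn, Finset.sum_insert (by simp)]
    have h1 := hA n
    have h2 := hle n hn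
    have h3 := hf n hn
    have h4 : (η * n - A n) * f (n + 1) ≤ (η * n - A n) * f n :=
      mul_le_mul_of_nonneg_left h3 (by linarith)
    have h5 : (η * ((n + 1 : ℕ) : ℝ) - A (n + 1)) * f (n + 1) =
        (η - w (n + 1)) * f (n + 1) + (η * n - A n) * f (n + 1) := by
      rw [h1]
      push_cast
      ring
    rw [h5]
    linarith

open Classical in
theorem ud_fin {G : ℕ → Prop} {e : ℝ} (h : UD G e) {η : ℝ} (hη : e < η) (hη0 : 0 ≤ η) :
    ∃ C : ℝ, ∀ s : ℝ, 1 < s → s < 2 → ∀ N : ℕ,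
      ∑ p ∈ (Icc 1 N).filter (fun p => p.Prime ∧ G p), ((p : ℕ) : ℝ) ^ (-s) ≤
        η * Real.log (1 / (s - 1)) + C := by
  obtain ⟨N0', hN0'⟩ := eventually_atTop.1 (h η hη)
  set N0 : ℕ := max N0' 2 with hN0
  have hN2 : 2 ≤ N0 := le_max_right _ _
  have hl2 : 0 < Real.log 2 := Real.log_pos (by norm_num)
  refine ⟨N0 + η * N0 / Real.log 2 + η / Real.log 2, fun s hs hs2 N => ?_⟩
  -- reduce to N ≥ N0
  set M : ℕ := max N N0 with hM
  have hlog0 : 0 ≤ Real.log (1 / (s - 1)) := by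
    apply Real.log_nonneg
    rw [le_div_iff₀ (by linarith)]
    linarith
  set w : ℕ → ℝ := fun n => if n.Prime ∧ G n then Real.log n else 0 with hw
  set f : ℕ → ℝ := fun n => ((n : ℕ) : ℝ) ^ (-s) / Real.log n with hf
  have hth : ∀ n, th G n = ∑ k ∈ Icc 1 n, w k := by
    intro n
    rw [th, Finset.sum_filter]
  have hA : ∀ n, th G (n + 1) = th G n + w (n + 1) := by
    intro n
    rw [hth, hth, Finset.sum_Icc_succ_top (by omega)]
  have hle : ∀ n, N0 ≤ n → th G n ≤ η * n := fun n hn => hN0' n ((le_max_left _ _).trans hn)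
  have hfa : ∀ n, N0 ≤ n → f (n + 1) ≤ f n := by
    intro n hn
    have hn2 : (2 : ℝ) ≤ n := by exact_mod_cast hN2.trans hn
    have h1 : 0 < Real.log n := Real.log_pos (by linarith)
    have h2 : Real.log n ≤ Real.log ((n + 1 : ℕ) : ℝ) := Real.log_le_log (by linarith) (by push_cast; linarith)
    have h3 : (((n + 1 : ℕ)) : ℝ) ^ (-s) ≤ (n : ℝ) ^ (-s) :=
      Real.rpow_le_rpow_of_nonpos (by linarith) (by push_cast; linarith) (by linarith)
    simp only [hf]
    exact div_le_div₀ (Real.rpow_nonneg (by linarith) _) h3 h1 h2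
  have hab := abel_ineq (fun n => th G n) w f η N0 hA hle hfa M (le_max_right _ _)
  have hfM : 0 ≤ (η * M - th G M) * f M := by
    apply mul_nonneg
    · have := hle M (le_max_right _ _)
      linarith
    · simp only [hf]
      apply div_nonneg (Real.rpow_nonneg (Nat.cast_nonneg _) _) (Real.log_natCast_nonneg _)
  have hf0 : f N0 ≤ 1 / Real.log 2 := by
    have hn2 : (2 : ℝ) ≤ N0 := by exact_mod_cast hN2
    simp only [hf]
    apply div_le_div₀ zero_le_one _ hl2 (Real.log_le_log (by norm_num) hn2)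
    exact Real.rpow_le_one_of_one_le_of_nonpos (by linarith) (by linarith)
  have hf0' : 0 ≤ f N0 := by
    simp only [hf]
    exact div_nonneg (Real.rpow_nonneg (Nat.cast_nonneg _) _) (Real.log_natCast_nonneg _)
  have hth0 : 0 ≤ th G N0 := th_nonneg G N0
  have hD0 : (η * N0 - th G N0) * f N0 ≤ η * N0 / Real.log 2 := by
    calc (η * N0 - th G N0) * f N0 ≤ (η * N0) * f N0 := mul_le_mul_of_nonneg_right (by linarith) hf0'
      _ ≤ (η * N0) * (1 / Real.log 2) := mul_le_mul_of_nonneg_left hf0 (by positivity)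
      _ = _ := by ring
  have hsplit : ∑ n ∈ Ioc N0 M, (η - w n) * f n = η * ∑ n ∈ Ioc N0 M, f n - ∑ n ∈ Ioc N0 M, w n * f n := by
    rw [Finset.mul_sum, ← Finset.sum_sub_distrib]
    exact Finset.sum_congr rfl fun n _ => by ring
  rw [hsplit] at hab
  have hsf : ∑ n ∈ Ioc N0 M, f n ≤ Real.log (1 / (s - 1)) + 1 / Real.log 2 := by
    refine le_trans (Finset.sum_le_sum_of_subset_of_nonneg ?_ ?_) (sum_log_le hs hs2.le M)
    · intro n hn
      rw [Finset.mem_Ioc] at hn ⊢
      omega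
    · intro n _ _
      exact div_nonneg (Real.rpow_nonneg (Nat.cast_nonneg _) _) (Real.log_natCast_nonneg _)
  have hwf : ∀ n ∈ Ioc N0 M, w n * f n = if n.Prime ∧ G n then ((n : ℕ) : ℝ) ^ (-s) else 0 := by
    intro n hn
    rw [Finset.mem_Ioc] at hn
    have hn2 : (2 : ℝ) < n := by exact_mod_cast lt_of_le_of_lt hN2 hn.1
    have h1 : 0 < Real.log n := Real.log_pos (by linarith)
    simp only [hw, hf]
    split_ifs with h
    · field_simp
    · ring
  have hfin : ∑ p ∈ (Icc 1 N).filter (fun p => p.Prime ∧ G p), ((p : ℕ) : ℝ) ^ (-s) ≤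
      N0 + ∑ n ∈ Ioc N0 M, w n * f n := by
    rw [Finset.sum_congr rfl hwf]
    have h1 : ∑ p ∈ (Icc 1 N).filter (fun p => p.Prime ∧ G p), ((p : ℕ) : ℝ) ^ (-s) ≤
        ∑ p ∈ Icc 1 M, (if p.Prime ∧ G p then ((p : ℕ) : ℝ) ^ (-s) else 0) := by
      rw [Finset.sum_filter]
      apply Finset.sum_le_sum_of_subset_of_nonneg
      · intro n hn
        rw [Finset.mem_Icc] at hn ⊢
        exact ⟨hn.1, hn.2.trans (le_max_left _ _)⟩
      · intro n _ _
        split_ifs
        · exact Real.rpow_nonneg (Nat.cast_nonneg _) _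
        · exact le_rfl
    refine h1.trans ?_
    have h2 : Icc 1 M = Icc 1 N0 ∪ Ioc N0 M := by
      ext n
      have : N0 ≤ M := le_max_right _ _
      simp only [Finset.mem_Icc, Finset.mem_union, Finset.mem_Ioc]
      omega
    have h3 : Disjoint (Icc 1 N0) (Ioc N0 M) := by
      rw [Finset.disjoint_left]
      intro n hn hn2
      rw [Finset.mem_Icc] at hn
      rw [Finset.mem_Ioc] at hn2
      omega
    rw [h2, Finset.sum_union h3]
    have h4 : ∑ p ∈ Icc 1 N0, (if p.Prime ∧ G p then ((p : ℕ) : ℝ) ^ (-s) else 0) ≤ N0 := by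
      calc ∑ p ∈ Icc 1 N0, (if p.Prime ∧ G p then ((p : ℕ) : ℝ) ^ (-s) else 0) ≤
          ∑ p ∈ Icc 1 N0, (1 : ℝ) := by
            refine Finset.sum_le_sum fun n hn => ?_
            rw [Finset.mem_Icc] at hn
            split_ifs
            · exact Real.rpow_le_one_of_one_le_of_nonpos (by exact_mod_cast hn.1) (by linarith)
            · exact zero_le_one
        _ = N0 := by simp
    linarith
  have h6 : η * ∑ n ∈ Ioc N0 M, f n ≤ η * (Real.log (1 / (s - 1)) + 1 / Real.log 2) :=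
    mul_le_mul_of_nonneg_left hsf hη0
  have h7 : η * (Real.log (1 / (s - 1)) + 1 / Real.log 2) = η * Real.log (1 / (s - 1)) + η / Real.log 2 := by
    ring
  linarith

open Classical in
/-- the Dirichlet sum over the primes with `G` -/
noncomputable def dS (G : ℕ → Prop) (s : ℝ) : ℝ :=
  ∑' p : Nat.Primes, if G p then ((p : ℕ) : ℝ) ^ (-s) else 0

theorem prime_summable {s : ℝ} (hs : 1 < s) : Summable (fun p : Nat.Primes => ((p : ℕ) : ℝ) ^ (-s)) := by
  have h : Summable (fun n : ℕ => (n : ℝ) ^ (-s)) := Real.summable_nat_rpow.2 (by linarith)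
  exact h.comp_injective (i := fun p : Nat.Primes => (p : ℕ)) (fun a b hab => Subtype.ext hab)

open Classical in
theorem dS_summable (G : ℕ → Prop) {s : ℝ} (hs : 1 < s) :
    Summable (fun p : Nat.Primes => if G p then ((p : ℕ) : ℝ) ^ (-s) else 0) := by
  refine Summable.of_nonneg_of_le (fun p => ?_) (fun p => ?_) (prime_summable hs)
  · split_ifs
    · exact Real.rpow_nonneg (Nat.cast_nonneg _) _
    · exact le_rfl
  · split_ifs
    · exact le_rfl
    · exact Real.rpow_nonneg (Nat.cast_nonneg _) _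

theorem dS_nonneg (G : ℕ → Prop) (s : ℝ) : 0 ≤ dS G s := by
  refine tsum_nonneg fun p => ?_
  split_ifs
  · exact Real.rpow_nonneg (Nat.cast_nonneg _) _
  · exact le_rfl

theorem dS_mono {G G' : ℕ → Prop} (h : ∀ p, p.Prime → G p → G' p) {s : ℝ} (hs : 1 < s) : dS G s ≤ dS G' s := by
  refine (dS_summable G hs).tsum_le_tsum (fun p => ?_) (dS_summable G' hs)
  by_cases h1 : G p
  · rw [if_pos h1, if_pos (h p p.2 h1)]
  · rw [if_neg h1]
    split_ifs
    · exact Real.rpow_nonneg (Nat.cast_nonneg _) _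
    · exact le_rfl

/-- **upper density bounds the Dirichlet sum** -/
theorem ud_sum {G : ℕ → Prop} {e : ℝ} (h : UD G e) {η : ℝ} (hη : e < η) (hη0 : 0 ≤ η) :
    ∃ C : ℝ, ∀ s : ℝ, 1 < s → s < 2 → dS G s ≤ η * Real.log (1 / (s - 1)) + C := by
  classical
  obtain ⟨C, hC⟩ := ud_fin h hη hη0
  refine ⟨C, fun s hs hs2 => ?_⟩
  apply Real.tsum_le_of_sum_le
  · intro p
    show (0 : ℝ) ≤ if G p then ((p : ℕ) : ℝ) ^ (-s) else 0
    split_ifs
    · exact Real.rpow_nonneg (Nat.cast_nonneg _) _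
    · exact le_rfl
  · intro S
    set T : Finset ℕ := S.image (fun p : Nat.Primes => (p : ℕ)) with hT
    set N : ℕ := T.sup id with hN
    refine le_trans ?_ (hC s hs hs2 N)
    have h1 : ∑ p ∈ S, (if G p then ((p : ℕ) : ℝ) ^ (-s) else 0) =
        ∑ n ∈ T, (if G n then ((n : ℕ) : ℝ) ^ (-s) else 0) := by
      rw [hT, Finset.sum_image]
      intro a _ b _ hab
      exact Subtype.ext hab
    rw [h1, ← Finset.sum_filter]
    apply Finset.sum_le_sum_of_subset_of_nonneg
    · intro n hn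
      rw [Finset.mem_filter] at hn ⊢
      obtain ⟨hnT, hG⟩ := hn
      have hle : n ≤ N := Finset.le_sup (f := id) hnT
      rw [hT, Finset.mem_image] at hnT
      obtain ⟨p, _, rfl⟩ := hnT
      exact ⟨Finset.mem_Icc.2 ⟨p.2.one_lt.le, hle⟩, p.2, hG⟩
    · intro n _ _
      exact Real.rpow_nonneg (Nat.cast_nonneg _) _

/-- `log (1/(s-1))` is unbounded near 1 -/
theorem exists_log_large (C : ℝ) : ∃ s : ℝ, 1 < s ∧ s < 2 ∧ C < Real.log (1 / (s - 1)) := by
  refine ⟨1 + Real.exp (-(|C| + 1)), ?_, ?_, ?_⟩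
  · have := Real.exp_pos (-(|C| + 1))
    linarith
  · have h1 : Real.exp (-(|C| + 1)) < 1 := by
      rw [Real.exp_lt_one_iff]
      have := abs_nonneg C
      linarith
    linarith
  · have h1 : 1 + Real.exp (-(|C| + 1)) - 1 = Real.exp (-(|C| + 1)) := by ring
    rw [h1, one_div, ← Real.exp_neg, neg_neg, Real.log_exp]
    have := le_abs_self C
    linarith

/-- a lower bound for the Dirichlet sum gives a lower bound for the upper density -/
theorem not_UD_of_sum {G : ℕ → Prop} {δ : ℝ} (hδ : ∃ C : ℝ, ∀ s : ℝ, 1 < s → s < 2 →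
    δ * Real.log (1 / (s - 1)) - C ≤ dS G s) {e : ℝ} (he : e < δ) : ¬ UD G e := by
  intro hU
  have he0 := UD_nonneg hU
  obtain ⟨C, hC⟩ := hδ
  obtain ⟨C', hC'⟩ := ud_sum hU (η := (e + δ) / 2) (by linarith) (by linarith)
  obtain ⟨s, hs, hs2, hs3⟩ := exists_log_large ((C + C') / ((δ - e) / 2))
  have h1 := hC s hs hs2
  have h2 := hC' s hs hs2
  have h3 : C + C' < (δ - e) / 2 * Real.log (1 / (s - 1)) := by
    rw [div_lt_iff₀ (by linarith)] at hs3
    linarith
  nlinarith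

/-- lower bound for the Dirichlet sum with a positive constant: infinitely many such primes outside every null set -/
theorem exists_of_sum {G B : ℕ → Prop} {δ : ℝ} (hδ0 : 0 < δ) (hδ : ∃ C : ℝ, ∀ s : ℝ, 1 < s → s < 2 →
    δ * Real.log (1 / (s - 1)) - C ≤ dS G s) (hB : Null B) (N : ℕ) :
    ∃ p, N < p ∧ p.Prime ∧ G p ∧ ¬ B p :=
  not_UD_exists (not_UD_of_sum hδ hδ0) hB N

/-- the same with the upper density of the good set -/
theorem not_UD_sdiff {G B : ℕ → Prop} {δ : ℝ} (hδ : ∃ C : ℝ, ∀ s : ℝ, 1 < s → s < 2 →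
    δ * Real.log (1 / (s - 1)) - C ≤ dS G s) (hB : Null B) {e : ℝ} (he : e < δ) :
    ¬ UD (fun p => G p ∧ ¬ B p) e := by
  intro hU
  refine not_UD_of_sum hδ he ?_
  have h1 := UD.or (e := e) (e' := 0) hU hB
  rw [add_zero] at h1
  refine UD.mono h1 (fun p _ hp => ?_) le_rfl
  by_cases hb : B p
  · exact Or.inr hb
  · exact Or.inl ⟨hp, hb⟩

end Pool.Agent.H24.FD
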