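import Pool.Agent.H24.FD.Euler

/-!
# FD splitting, module 3: only the primes of degree one matter

`np K p` = number of ring homomorphisms `𝓞 K → ZMod p` = number of ideals of norm `p`.
**P1** `np_sum`: `∑_p np K p * p^(-s) = log (1/(s-1)) + O(1)` for `1 < s < 2`.
-/

set_option autoImplicit false

namespace Pool.Agent.H24.FD

open NumberField Filter Topology Ideal Finset

variable (K : Type*) [Field K] [NumberField K]

/-- number of degree one places above `p` -/
noncomputable def np (K : Type*) [Field K] (p : ℕ) : ℕ := Nat.card (𝓞 K →+* ZMod p)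

/-- the ideals of prime norm -/
def D1 : Set (Ideal (𝓞 K)) := {v | (absNorm v).Prime}

/-- the other nonzero primes -/
def D2 : Set (Ideal (𝓞 K)) := {v | v ∈ PP K ∧ ¬ (absNorm v).Prime}

theorem D1_sub : D1 K ⊆ PP K := by
  intro v hv
  have hv' : (absNorm v).Prime := hv
  refine ⟨isPrime_of_irreducible_absNorm hv', ?_⟩
  rintro rfl
  rw [absNorm_bot] at hv'
  exact Nat.not_prime_zero hv'

/-- at most `[K:ℚ]` primes contain `p` -/
theorem card_le (p : ℕ) (hp : p.Prime) (S : Finset (Ideal (𝓞 K)))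
    (hS : ∀ v ∈ S, v ∈ PP K ∧ (p : 𝓞 K) ∈ v) : S.card ≤ Module.finrank ℚ K := by
  classical
  have hnorm : ∀ v ∈ S, p ∣ absNorm v := by
    intro v hv
    obtain ⟨hvP, hpv⟩ := hS v hv
    have hmax := PP_max K hvP
    obtain ⟨q, n, hn, hqv, hq, hqn⟩ := exists_prime_and_absNorm_eq_pow v
    by_cases hqp : q = p
    · rw [hqn, ← hqp]
      exact dvd_pow_self q hn.ne'
    · exfalso
      have hc : IsCoprime ((q : ℤ)) ((p : ℤ)) := by
        rw [Nat.isCoprime_iff_coprime]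
        exact (Nat.coprime_primes hq hp).2 hqp
      obtain ⟨a, b, hab⟩ := hc
      apply hvP.1.ne_top
      rw [Ideal.eq_top_iff_one]
      have h1 : ((a * q + b * p : ℤ) : 𝓞 K) = 1 := by rw [hab]; simp
      rw [← h1]
      push_cast
      exact v.add_mem (v.mul_mem_left _ hqv) (v.mul_mem_left _ hpv)
  have hdvd : ∏ v ∈ S, v ∣ Ideal.span {(p : 𝓞 K)} := by
    apply Finset.prod_primes_dvd
    · intro v hv
      exact PP_prime K (hS v hv).1
    · intro v hv
      rw [Ideal.dvd_span_singleton]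
      exact (hS v hv).2
  have h1 : absNorm (∏ v ∈ S, v) ∣ absNorm (Ideal.span {(p : 𝓞 K)}) :=
    map_dvd absNorm hdvd
  rw [Ideal.absNorm_span_natCast, map_prod] at h1
  have h2 : p ^ S.card ∣ ∏ v ∈ S, absNorm v := by
    rw [← Finset.prod_const]
    exact Finset.prod_dvd_prod_of_dvd _ _ hnorm
  have h3 : p ^ S.card ∣ p ^ Module.finrank ℤ (𝓞 K) := h2.trans h1
  rw [Nat.pow_dvd_pow_iff_le_right hp.one_lt, RingOfIntegers.rank] at h3
  exact h3

theorem D2_bound : ∃ C : ℝ, ∀ s : ℝ, 1 < s → sS K (D2 K) s ≤ C := by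
  classical
  have hsum : Summable (fun n : ℕ => ((n : ℝ) ^ 2)⁻¹) := Real.summable_nat_pow_inv.2 (by norm_num)
  refine ⟨Module.finrank ℚ K * ∑' n : ℕ, ((n : ℝ) ^ 2)⁻¹, fun s hs => sS_le K _ _ fun S hS => ?_⟩
  have hpr : ∀ v ∈ S, ∃ p : ℕ, p.Prime ∧ (p : 𝓞 K) ∈ v ∧ p ^ 2 ≤ absNorm v := by
    intro v hv
    have hvS : v ∈ D2 K := hS v hv
    have hmax := PP_max K hvS.1
    obtain ⟨q, n, hn, hqv, hq, hqn⟩ := exists_prime_and_absNorm_eq_pow v
    refine ⟨q, hq, hqv, ?_⟩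
    have hn2 : 2 ≤ n := by
      by_contra hlt
      have hn1 : n = 1 := by omega
      apply hvS.2
      rw [hqn, hn1, pow_one]
      exact hq
    rw [hqn]
    exact Nat.pow_le_pow_right hq.pos hn2
  choose! f hf1 hf2 hf3 using hpr
  have hterm : ∀ v ∈ S, nrm K s v ≤ (((f v : ℕ) : ℝ) ^ 2)⁻¹ := by
    intro v hv
    have h1 : ((f v : ℕ) : ℝ) ^ 2 ≤ (absNorm v : ℕ) := by exact_mod_cast hf3 v hv
    have hf0 : (0 : ℝ) < ((f v : ℕ) : ℝ) ^ 2 := by
      have := (hf1 v hv).pos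
      positivity
    have hN1 : (1 : ℝ) ≤ (absNorm v : ℕ) := by
      have := two_le_norm K (hS v hv).1
      have h2 : (2 : ℝ) ≤ (absNorm v : ℕ) := by exact_mod_cast this
      linarith
    calc nrm K s v ≤ ((absNorm v : ℕ) : ℝ) ^ (-1 : ℝ) :=
          Real.rpow_le_rpow_of_exponent_le hN1 (by linarith)
      _ = (((absNorm v : ℕ) : ℝ))⁻¹ := Real.rpow_neg_one _
      _ ≤ _ := inv_anti₀ hf0 h1
  calc ∑ v ∈ S, nrm K s v ≤ ∑ v ∈ S, (((f v : ℕ) : ℝ) ^ 2)⁻¹ := Finset.sum_le_sum hterm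
    _ = ∑ p ∈ S.image f, ∑ v ∈ S with f v = p, (((f v : ℕ) : ℝ) ^ 2)⁻¹ := by
        rw [Finset.sum_fiberwise_of_maps_to]
        intro v hv
        exact Finset.mem_image_of_mem f hv
    _ ≤ ∑ p ∈ S.image f, (Module.finrank ℚ K : ℝ) * (((p : ℕ) : ℝ) ^ 2)⁻¹ := by
        refine Finset.sum_le_sum fun p hp => ?_
        obtain ⟨w, hw, rfl⟩ := Finset.mem_image.1 hp
        have h1 : ∑ v ∈ S with f v = f w, (((f v : ℕ) : ℝ) ^ 2)⁻¹ =
            ∑ v ∈ S with f v = f w, (((f w : ℕ) : ℝ) ^ 2)⁻¹ := by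
          refine Finset.sum_congr rfl fun v hv => ?_
          rw [(Finset.mem_filter.1 hv).2]
        rw [h1, Finset.sum_const, nsmul_eq_mul]
        apply mul_le_mul_of_nonneg_right _ (by positivity)
        have h2 := card_le K (f w) (hf1 w hw) (S.filter fun v => f v = f w) (by
          intro v hv
          obtain ⟨hv1, hv2⟩ := Finset.mem_filter.1 hv
          refine ⟨(hS v hv1).1, ?_⟩
          rw [← hv2]
          exact hf2 v hv1)
        exact_mod_cast h2
    _ = (Module.finrank ℚ K : ℝ) * ∑ p ∈ S.image f, (((p : ℕ) : ℝ) ^ 2)⁻¹ := by rw [Finset.mul_sum]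
    _ ≤ _ := by
        apply mul_le_mul_of_nonneg_left _ (Nat.cast_nonneg _)
        exact hsum.sum_le_tsum _ fun n _ => by positivity

theorem PP_split {s : ℝ} (hs : 1 < s) : sS K (PP K) s = sS K (D1 K) s + sS K (D2 K) s := by
  rw [sS, sS, sS, ← (ind_summable K hs (D1 K)).tsum_add (ind_summable K hs (D2 K))]
  refine tsum_congr fun I => ?_
  by_cases h1 : I ∈ D1 K
  · have h2 : I ∉ D2 K := fun h => h.2 h1
    rw [Set.indicator_of_mem h1, Set.indicator_of_notMem h2, Set.indicator_of_mem (D1_sub K h1), add_zero]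
  · by_cases h3 : I ∈ PP K
    · have h2 : I ∈ D2 K := ⟨h3, h1⟩
      rw [Set.indicator_of_notMem h1, Set.indicator_of_mem h2, Set.indicator_of_mem h3, zero_add]
    · have h2 : I ∉ D2 K := fun h => h3 h.1
      rw [Set.indicator_of_notMem h1, Set.indicator_of_notMem h2, Set.indicator_of_notMem h3, zero_add]

theorem D1_log : ∃ C : ℝ, ∀ s : ℝ, 1 < s → s < 2 → |sS K (D1 K) s - Real.log (1 / (s - 1))| ≤ C := by
  obtain ⟨C1, h1⟩ := log_Zr K
  obtain ⟨C2, h2⟩ := D2_bound K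
  refine ⟨C1 + 2 * Zr K 2 + |C2|, fun s hs hs2 => ?_⟩
  have h3 := h1 s hs hs2
  have h4 := h2 s hs
  have h5 := sP_le K hs
  have h6 := le_sP K hs
  have h7 := PP_split K hs
  have h8 : 0 ≤ sS K (D2 K) s := tsum_nonneg fun I => ind_nonneg K s _ I
  have h9 := one_le_Zr K (s := 2) (by norm_num)
  have h10 := le_abs_self C2
  rw [abs_le] at h3 ⊢
  constructor <;> linarith [h3.1, h3.2]

/-- kernel of a homomorphism to `ZMod p` has norm `p` -/
theorem ker_norm (p : ℕ) [hp : Fact p.Prime] (φ : 𝓞 K →+* ZMod p) : absNorm (RingHom.ker φ) = p := by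
  have hsurj : Function.Surjective φ := ZMod.ringHom_surjective φ
  have e := RingHom.quotientKerEquivOfSurjective hsurj
  rw [Ideal.absNorm_apply, Submodule.cardQuot_apply, Nat.card_congr e.toEquiv, Nat.card_zmod]

theorem np_eq (p : ℕ) (hp : p.Prime) : np K p = cI K p := by
  have hF : Fact p.Prime := ⟨hp⟩
  rw [np, cI]
  refine Nat.card_eq_of_bijective (fun φ => ⟨RingHom.ker φ, ker_norm K p φ⟩) ⟨?_, ?_⟩
  · intro φ ψ h
    have hk : RingHom.ker φ = RingHom.ker ψ := congrArg Subtype.val h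
    ext x
    have h1 : φ x = φ (((φ x).val : ℕ) : 𝓞 K) := by
      rw [map_natCast, ZMod.natCast_val, ZMod.cast_id]
    have h2 : x - (((φ x).val : ℕ) : 𝓞 K) ∈ RingHom.ker φ := by
      rw [RingHom.mem_ker, map_sub, ← h1, sub_self]
    rw [hk, RingHom.mem_ker, map_sub, map_natCast, ZMod.natCast_val, ZMod.cast_id, sub_eq_zero] at h2
    exact h2.symm
  · rintro ⟨I, hI⟩
    have hcard : Nat.card (𝓞 K ⧸ I) = p := by
      rw [← hI, Ideal.absNorm_apply, Submodule.cardQuot_apply]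
    have hfin : Finite (𝓞 K ⧸ I) := Nat.finite_of_card_ne_zero (by rw [hcard]; exact hp.ne_zero)
    have hft : Fintype (𝓞 K ⧸ I) := Fintype.ofFinite _
    have e : ZMod p ≃+* (𝓞 K ⧸ I) := ZMod.ringEquivOfPrime _ hp (by rw [← Nat.card_eq_fintype_card, hcard])
    refine ⟨(e.symm : (𝓞 K ⧸ I) →+* ZMod p).comp (Ideal.Quotient.mk I), ?_⟩
    apply Subtype.ext
    ext x
    simp only [RingHom.mem_ker, RingHom.comp_apply]
    rw [← Ideal.Quotient.eq_zero_iff_mem]
    exact map_eq_zero_iff (e.symm : (𝓞 K ⧸ I) →+* ZMod p) e.symm.injective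

theorem np_finite (p : ℕ) (hp : p.Prime) : Finite (𝓞 K →+* ZMod p) := by
  have hF : Fact p.Prime := ⟨hp⟩
  have hfin : Finite {I : Ideal (𝓞 K) // absNorm I = p} := finite_setOfPred_absNorm_eq p
  refine Finite.of_injective (fun φ : 𝓞 K →+* ZMod p =>
    (⟨RingHom.ker φ, ker_norm K p φ⟩ : {I : Ideal (𝓞 K) // absNorm I = p})) ?_
  intro φ ψ h
  have hk : RingHom.ker φ = RingHom.ker ψ := congrArg Subtype.val h
  ext x
  have h1 : φ x = φ (((φ x).val : ℕ) : 𝓞 K) := by
    rw [map_natCast, ZMod.natCast_val, ZMod.cast_id]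
  have h2 : x - (((φ x).val : ℕ) : 𝓞 K) ∈ RingHom.ker φ := by
    rw [RingHom.mem_ker, map_sub, ← h1, sub_self]
  rw [hk, RingHom.mem_ker, map_sub, map_natCast, ZMod.natCast_val, ZMod.cast_id, sub_eq_zero] at h2
  exact h2.symm

theorem np_le (p : ℕ) (hp : p.Prime) : np K p ≤ Module.finrank ℚ K := by
  classical
  rw [np_eq K p hp, cI]
  have hfin : Finite {I : Ideal (𝓞 K) // absNorm I = p} := finite_setOfPred_absNorm_eq p
  have hft : Fintype {I : Ideal (𝓞 K) // absNorm I = p} := Fintype.ofFinite _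
  rw [Nat.card_eq_fintype_card, ← Finset.card_univ,
    ← Finset.card_map (Function.Embedding.subtype fun I : Ideal (𝓞 K) => absNorm I = p)]
  refine card_le K p hp _ fun v hv => ?_
  obtain ⟨w, _, rfl⟩ := Finset.mem_map.1 hv
  have hw : absNorm w.1 = p := w.2
  refine ⟨D1_sub K (show (absNorm w.1).Prime by rw [hw]; exact hp), ?_⟩
  have h1 := absNorm_mem w.1
  rw [hw] at h1
  exact h1

theorem D1_eq {s : ℝ} (hs : 1 < s) : sS K (D1 K) s =
    ∑' p : Nat.Primes, (np K p : ℝ) * ((p : ℕ) : ℝ) ^ (-s) := by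
  rw [sS, ← (Equiv.sigmaFiberEquiv (absNorm : Ideal (𝓞 K) → ℕ)).tsum_eq]
  have h1 := ((Equiv.sigmaFiberEquiv (absNorm : Ideal (𝓞 K) → ℕ)).summable_iff
    (f := (D1 K).indicator (nrm K s))).2 (ind_summable K hs _)
  refine (h1.tsum_sigma).trans ?_
  have h2 : ∀ n : ℕ, ∑' I : {I : Ideal (𝓞 K) // absNorm I = n}, (D1 K).indicator (nrm K s) I.1 =
      {n : ℕ | n.Prime}.indicator (fun n : ℕ => (cI K n : ℝ) * (n : ℝ) ^ (-s)) n := by
    intro n
    by_cases hn : n.Prime
    · rw [Set.indicator_of_mem (show n ∈ {n : ℕ | n.Prime} from hn), ← fiber_eq K s n]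
      refine tsum_congr fun I => ?_
      have hI : absNorm I.1 = n := I.2
      have hm : I.1 ∈ D1 K := by
        show (absNorm I.1).Prime
        rw [hI]
        exact hn
      exact Set.indicator_of_mem hm _
    · rw [Set.indicator_of_notMem (show n ∉ {n : ℕ | n.Prime} from hn)]
      have h3 : ∀ I : {I : Ideal (𝓞 K) // absNorm I = n}, (D1 K).indicator (nrm K s) I.1 = 0 := by
        intro I
        have hI : absNorm I.1 = n := I.2
        have hm : I.1 ∉ D1 K := by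
          show ¬ (absNorm I.1).Prime
          rw [hI]
          exact hn
        exact Set.indicator_of_notMem hm _
      rw [tsum_congr h3, tsum_zero]
  refine (tsum_congr h2).trans ?_
  rw [← _root_.tsum_subtype]
  refine tsum_congr fun p => ?_
  have hp : (p : ℕ).Prime := p.2
  rw [np_eq K _ hp]

theorem np_summable {s : ℝ} (hs : 1 < s) :
    Summable (fun p : Nat.Primes => (np K p : ℝ) * ((p : ℕ) : ℝ) ^ (-s)) := by
  have h := (cI_summable K hs).comp_injective (i := fun p : Nat.Primes => (p : ℕ))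
    (fun a b hab => Subtype.ext hab)
  refine h.congr fun p => ?_
  rw [Function.comp_apply, np_eq K p p.2]

/-- **P1** -/
theorem np_sum : ∃ C : ℝ, ∀ s : ℝ, 1 < s → s < 2 →
    |∑' p : Nat.Primes, (np K p : ℝ) * ((p : ℕ) : ℝ) ^ (-s) - Real.log (1 / (s - 1))| ≤ C := by
  obtain ⟨C, h⟩ := D1_log K
  refine ⟨C, fun s hs hs2 => ?_⟩
  rw [← D1_eq K hs]
  exact h s hs hs2

end Pool.Agent.H24.FD
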