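import Pool.Agent.H24.FD.Zeta

/-!
# FD splitting, module 2: the two halves of the Euler product of the Dedekind zeta function

`∑_(v ∈ S) N v^(-s) ≤ log Zr + Zr 2` for finite sets `S` of nonzero primes, and
`log Zr ≤ ∑_v N v^(-s) + 2 Zr 2`.
-/

set_option autoImplicit false

namespace Pool.Agent.H24.FD

open NumberField Filter Topology Ideal Finset UniqueFactorizationMonoid

variable (K : Type*) [Field K] [NumberField K]

theorem nrm_mul (s : ℝ) (I J : Ideal (𝓞 K)) : nrm K s (I * J) = nrm K s I * nrm K s J := by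
  rw [nrm, nrm, nrm, map_mul, Nat.cast_mul, Real.mul_rpow (Nat.cast_nonneg _) (Nat.cast_nonneg _)]

theorem nrm_top (s : ℝ) : nrm K s ⊤ = 1 := by
  rw [nrm, absNorm_top, Nat.cast_one, Real.one_rpow]

theorem nrm_one (s : ℝ) : nrm K s 1 = 1 := by
  rw [Ideal.one_eq_top, nrm_top]

theorem nrm_bot {s : ℝ} (hs : s ≠ 0) : nrm K s ⊥ = 0 := by
  rw [nrm, absNorm_bot, Nat.cast_zero, Real.zero_rpow (neg_ne_zero.2 hs)]

/-- the norm as a monoid homomorphism -/
noncomputable def nrmH (s : ℝ) : Ideal (𝓞 K) →* ℝ where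
  toFun := nrm K s
  map_one' := nrm_one K s
  map_mul' := nrm_mul K s

theorem nrmH_apply (s : ℝ) (I : Ideal (𝓞 K)) : nrmH K s I = nrm K s I := rfl

/-- the nonzero primes -/
def PP : Set (Ideal (𝓞 K)) := {v | v.IsPrime ∧ v ≠ ⊥}

theorem PP_prime {v : Ideal (𝓞 K)} (hv : v ∈ PP K) : Prime v := Ideal.prime_of_isPrime hv.2 hv.1

theorem PP_max {v : Ideal (𝓞 K)} (hv : v ∈ PP K) : v.IsMaximal := hv.1.isMaximal hv.2

theorem two_le_norm {v : Ideal (𝓞 K)} (hv : v ∈ PP K) : 2 ≤ absNorm v := by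
  have h1 : absNorm v ≠ 0 := by
    rw [Ne, Ideal.absNorm_eq_zero_iff]
    exact hv.2
  have h2 : absNorm v ≠ 1 := by
    rw [Ne, Ideal.absNorm_eq_one_iff]
    exact hv.1.ne_top
  omega

theorem nrm_le_half {s : ℝ} (hs : 1 < s) {v : Ideal (𝓞 K)} (hv : v ∈ PP K) : nrm K s v ≤ 1 / 2 := by
  have h2 : (2 : ℝ) ≤ (absNorm v : ℕ) := by exact_mod_cast two_le_norm K hv
  calc nrm K s v ≤ (2 : ℝ) ^ (-s) := Real.rpow_le_rpow_of_nonpos (by norm_num) h2 (by linarith)
    _ ≤ (2 : ℝ) ^ (-1 : ℝ) := Real.rpow_le_rpow_of_exponent_le (by norm_num) (by linarith)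
    _ = 1 / 2 := by rw [Real.rpow_neg_one]; norm_num

/-- `N^(-s)` is decreasing in `s` -/
theorem nrm_anti {s t : ℝ} (hs : 0 < s) (hst : s ≤ t) (I : Ideal (𝓞 K)) : nrm K t I ≤ nrm K s I := by
  rcases Nat.eq_zero_or_pos (absNorm I) with h | h
  · rw [nrm, nrm, h, Nat.cast_zero, Real.zero_rpow (by linarith), Real.zero_rpow (by linarith)]
  · exact Real.rpow_le_rpow_of_exponent_le (by exact_mod_cast h) (by linarith)

theorem nrm_sq (s : ℝ) (I : Ideal (𝓞 K)) : nrm K s I ^ 2 = nrm K (2 * s) I := by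
  rw [nrm, nrm, ← Real.rpow_natCast, ← Real.rpow_mul (Nat.cast_nonneg _)]
  congr 1
  push_cast
  ring

theorem nrm_sq_le {s : ℝ} (hs : 1 < s) (I : Ideal (𝓞 K)) : nrm K s I ^ 2 ≤ nrm K 2 I := by
  rw [nrm_sq]
  exact nrm_anti K (by norm_num) (by linarith) I

theorem one_le_Zr {s : ℝ} (hs : 1 < s) : 1 ≤ Zr K s := by
  rw [← nrm_top K s]
  exact (summable_nrm K hs).le_tsum ⊤ (fun I _ => nrm_nonneg K s I)

theorem Zr_anti {s t : ℝ} (hs : 1 < s) (hst : s ≤ t) : Zr K t ≤ Zr K s :=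
  (summable_nrm K (by linarith)).tsum_le_tsum (fun I => nrm_anti K (by linarith) hst I)
    (summable_nrm K hs)

theorem sum_sq_le {s : ℝ} (hs : 1 < s) (S : Finset (Ideal (𝓞 K))) :
    ∑ v ∈ S, nrm K s v ^ 2 ≤ Zr K 2 :=
  (Finset.sum_le_sum fun v _ => nrm_sq_le K hs v).trans
    ((summable_nrm K (by norm_num)).sum_le_tsum S (fun I _ => nrm_nonneg K 2 I))

/-- distinct subsets of primes have distinct products -/
theorem prod_inj (S T : Finset (Ideal (𝓞 K))) (hS : ∀ v ∈ S, v ∈ PP K) (hT : ∀ v ∈ T, v ∈ PP K)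
    (h : ∏ v ∈ S, v = ∏ v ∈ T, v) : S ⊆ T := by
  intro v hv
  have h1 : v ∣ ∏ w ∈ T, w := h ▸ Finset.dvd_prod_of_mem (fun v => v) hv
  obtain ⟨w, hw, hvw⟩ := (PP_prime K (hS v hv)).exists_mem_finset_dvd h1
  have h2 : w ≤ v := Ideal.dvd_iff_le.1 hvw
  have h3 : w = v := (PP_max K (hT w hw)).eq_of_le (hS v hv).1.ne_top h2
  rw [← h3]
  exact hw

/-- first half of the Euler product -/
theorem prod_le_Zr {s : ℝ} (hs : 1 < s) (S : Finset (Ideal (𝓞 K))) (hS : ∀ v ∈ S, v ∈ PP K) :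
    ∏ v ∈ S, (1 + nrm K s v) ≤ Zr K s := by
  classical
  rw [Finset.prod_one_add]
  have h1 : ∀ T ∈ S.powerset, ∏ v ∈ T, nrm K s v = nrm K s (∏ v ∈ T, v) := by
    intro T _
    rw [← nrmH_apply, map_prod]
    rfl
  rw [Finset.sum_congr rfl h1]
  have h2 : ∑ T ∈ S.powerset, nrm K s (∏ v ∈ T, v) =
      ∑ I ∈ S.powerset.image (fun T => ∏ v ∈ T, v), nrm K s I := by
    rw [Finset.sum_image]
    intro T hT U hU hTU
    have hT' : ∀ v ∈ T, v ∈ PP K := fun v hv => hS v (Finset.mem_powerset.1 hT hv)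
    have hU' : ∀ v ∈ U, v ∈ PP K := fun v hv => hS v (Finset.mem_powerset.1 hU hv)
    exact Finset.Subset.antisymm (prod_inj K T U hT' hU' hTU) (prod_inj K U T hU' hT' hTU.symm)
  rw [h2]
  exact (summable_nrm K hs).sum_le_tsum _ (fun I _ => nrm_nonneg K s I)

theorem log_one_add_ge {x : ℝ} (hx : 0 ≤ x) : x - x ^ 2 ≤ Real.log (1 + x) := by
  have h1 := Real.one_sub_inv_le_log_of_pos (x := 1 + x) (by linarith)
  refine le_trans ?_ h1
  have h2 : 1 - (1 + x)⁻¹ = x / (1 + x) := by field_simp; ring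
  rw [h2, le_div_iff₀ (by linarith)]
  nlinarith [mul_nonneg hx (sq_nonneg x)]

theorem neg_log_le {x : ℝ} (hx : 0 ≤ x) (hx2 : x ≤ 1 / 2) : -Real.log (1 - x) ≤ x + 2 * x ^ 2 := by
  have h1 := Real.one_sub_inv_le_log_of_pos (x := 1 - x) (by linarith)
  have h2 : 1 - (1 - x)⁻¹ = -(x / (1 - x)) := by
    have : (1 - x) ≠ 0 := by linarith
    field_simp
    ring
  have h3 : x / (1 - x) ≤ x + 2 * x ^ 2 := by
    rw [div_le_iff₀ (by linarith)]
    nlinarith [mul_nonneg hx hx, mul_nonneg (mul_nonneg hx hx) (by linarith : 0 ≤ 1 / 2 - x)]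
  linarith

theorem sum_le_log {s : ℝ} (hs : 1 < s) (S : Finset (Ideal (𝓞 K))) (hS : ∀ v ∈ S, v ∈ PP K) :
    ∑ v ∈ S, nrm K s v ≤ Real.log (Zr K s) + Zr K 2 := by
  have h1 : ∑ v ∈ S, (nrm K s v - nrm K s v ^ 2) ≤ ∑ v ∈ S, Real.log (1 + nrm K s v) :=
    Finset.sum_le_sum fun v _ => log_one_add_ge (nrm_nonneg K s v)
  have h2 : ∑ v ∈ S, Real.log (1 + nrm K s v) = Real.log (∏ v ∈ S, (1 + nrm K s v)) := by
    rw [Real.log_prod]
    intro v _
    have := nrm_nonneg K s v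
    linarith
  have h3 : Real.log (∏ v ∈ S, (1 + nrm K s v)) ≤ Real.log (Zr K s) := by
    apply Real.log_le_log
    · apply Finset.prod_pos
      intro v _
      have := nrm_nonneg K s v
      linarith
    · exact prod_le_Zr K hs S hS
  rw [Finset.sum_sub_distrib] at h1
  have h4 := sum_sq_le K hs S
  linarith

/-- second half of the Euler product, finite form -/
theorem sum_le_prod {s : ℝ} (hs : 1 < s) (T : Finset (Ideal (𝓞 K))) (hT : ∀ I ∈ T, I ≠ ⊥) :
    ∃ S : Finset (Ideal (𝓞 K)), (∀ v ∈ S, v ∈ PP K) ∧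
      ∑ I ∈ T, nrm K s I ≤ ∏ v ∈ S, (1 - nrm K s v)⁻¹ := by
  classical
  set S : Finset (Ideal (𝓞 K)) := T.biUnion fun I => (normalizedFactors I).toFinset with hSd
  have hS : ∀ v ∈ S, v ∈ PP K := by
    intro v hv
    rw [hSd, Finset.mem_biUnion] at hv
    obtain ⟨I, hI, hvI⟩ := hv
    rw [Multiset.mem_toFinset] at hvI
    have hp := prime_of_normalized_factor v hvI
    exact ⟨Ideal.isPrime_of_prime hp, hp.ne_zero⟩
  refine ⟨S, hS, ?_⟩
  set E : ℕ := T.sup (fun I => Multiset.card (normalizedFactors I)) + 1 with hE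
  set F : Ideal (𝓞 K) → (S → ℕ) := fun I v => (normalizedFactors I).count v.1 with hF
  have hprod : ∀ I ∈ T, I = ∏ v ∈ S, v ^ (normalizedFactors I).count v := by
    intro I hI
    have h1 := Ideal.prod_normalizedFactors_eq_self (hT I hI)
    conv_lhs => rw [← h1]
    apply Finset.prod_multiset_count_of_subset
    intro v hv
    rw [hSd, Finset.mem_biUnion]
    exact ⟨I, hI, hv⟩
  have hinj : Set.InjOn F (T : Set (Ideal (𝓞 K))) := by
    intro I hI J hJ hIJ
    rw [hprod I hI, hprod J hJ]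
    refine Finset.prod_congr rfl fun v hv => ?_
    have := congrFun hIJ ⟨v, hv⟩
    simp only [hF] at this
    rw [this]
  have hval : ∀ I ∈ T, nrm K s I = ∏ v : S, nrm K s v.1 ^ (F I v) := by
    intro I hI
    conv_lhs => rw [hprod I hI, ← nrmH_apply, map_prod]
    rw [Finset.univ_eq_attach]
    rw [← Finset.prod_attach]
    refine Finset.prod_congr rfl fun v _ => ?_
    rw [map_pow]
    rfl
  have hmem : ∀ I ∈ T, F I ∈ Fintype.piFinset fun _ : S => Finset.range E := by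
    intro I hI
    rw [Fintype.mem_piFinset]
    intro v
    rw [Finset.mem_range, hE]
    have h1 : (normalizedFactors I).count v.1 ≤ Multiset.card (normalizedFactors I) :=
      Multiset.count_le_card _ _
    have h2 : Multiset.card (normalizedFactors I) ≤ T.sup (fun I => Multiset.card (normalizedFactors I)) :=
      Finset.le_sup (f := fun I => Multiset.card (normalizedFactors I)) hI
    simp only [hF]
    omega
  calc ∑ I ∈ T, nrm K s I = ∑ I ∈ T, ∏ v : S, nrm K s v.1 ^ (F I v) := Finset.sum_congr rfl hval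
    _ = ∑ g ∈ T.image F, ∏ v : S, nrm K s v.1 ^ (g v) := by
        rw [Finset.sum_image hinj]
    _ ≤ ∑ g ∈ Fintype.piFinset fun _ : S => Finset.range E, ∏ v : S, nrm K s v.1 ^ (g v) := by
        apply Finset.sum_le_sum_of_subset_of_nonneg
        · intro g hg
          obtain ⟨I, hI, rfl⟩ := Finset.mem_image.1 hg
          exact hmem I hI
        · intro g _ _
          exact Finset.prod_nonneg fun v _ => pow_nonneg (nrm_nonneg K s _) _
    _ = ∏ v : S, ∑ j ∈ Finset.range E, nrm K s v.1 ^ j := by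
        rw [Finset.prod_univ_sum]
    _ ≤ ∏ v : S, (1 - nrm K s v.1)⁻¹ := by
        apply Finset.prod_le_prod
        · intro v _
          exact Finset.sum_nonneg fun j _ => pow_nonneg (nrm_nonneg K s _) _
        · intro v _
          have h1 := nrm_le_half K hs (hS v.1 v.2)
          have h0 := nrm_nonneg K s v.1
          have h2 : ∑ j ∈ Finset.range E, nrm K s v.1 ^ j ≤ ∑' j : ℕ, nrm K s v.1 ^ j :=
            (summable_geometric_of_lt_one h0 (by linarith)).sum_le_tsum _ fun j _ => pow_nonneg h0 j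
          rwa [tsum_geometric_of_lt_one h0 (by linarith)] at h2
    _ = ∏ v ∈ S, (1 - nrm K s v)⁻¹ := by
        rw [Finset.univ_eq_attach]
        exact Finset.prod_attach S (fun v => (1 - nrm K s v)⁻¹)

/-- the sum over a set of ideals -/
noncomputable def sS (A : Set (Ideal (𝓞 K))) (s : ℝ) : ℝ := ∑' I : Ideal (𝓞 K), A.indicator (nrm K s) I

theorem ind_summable {s : ℝ} (hs : 1 < s) (A : Set (Ideal (𝓞 K))) : Summable (A.indicator (nrm K s)) :=
  (summable_nrm K hs).indicator A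

theorem ind_nonneg (s : ℝ) (A : Set (Ideal (𝓞 K))) (I : Ideal (𝓞 K)) : 0 ≤ A.indicator (nrm K s) I :=
  Set.indicator_nonneg (fun I _ => nrm_nonneg K s I) I

theorem sS_le {s : ℝ} (A : Set (Ideal (𝓞 K))) (C : ℝ)
    (h : ∀ S : Finset (Ideal (𝓞 K)), (∀ v ∈ S, v ∈ A) → ∑ v ∈ S, nrm K s v ≤ C) : sS K A s ≤ C := by
  classical
  apply Real.tsum_le_of_sum_le (fun I => ind_nonneg K s A I)
  intro S
  have h1 : ∑ I ∈ S, A.indicator (nrm K s) I = ∑ I ∈ S.filter (fun I => I ∈ A), nrm K s I := by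
    rw [Finset.sum_filter]
    rfl
  rw [h1]
  exact h _ fun v hv => (Finset.mem_filter.1 hv).2

theorem le_sS {s : ℝ} (hs : 1 < s) (A : Set (Ideal (𝓞 K))) (S : Finset (Ideal (𝓞 K)))
    (hS : ∀ v ∈ S, v ∈ A) : ∑ v ∈ S, nrm K s v ≤ sS K A s := by
  have h1 : ∑ v ∈ S, nrm K s v = ∑ v ∈ S, A.indicator (nrm K s) v :=
    Finset.sum_congr rfl fun v hv => (Set.indicator_of_mem (hS v hv) _).symm
  rw [h1]
  exact (ind_summable K hs A).sum_le_tsum S fun I _ => ind_nonneg K s A I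

theorem sP_le {s : ℝ} (hs : 1 < s) : sS K (PP K) s ≤ Real.log (Zr K s) + Zr K 2 :=
  sS_le K _ _ fun S hS => sum_le_log K hs S hS

theorem le_sP {s : ℝ} (hs : 1 < s) : Real.log (Zr K s) ≤ sS K (PP K) s + 2 * Zr K 2 := by
  classical
  have hZ : Zr K s ≤ Real.exp (sS K (PP K) s + 2 * Zr K 2) := by
    apply Real.tsum_le_of_sum_le (fun I => nrm_nonneg K s I)
    intro T
    have h1 : ∑ I ∈ T, nrm K s I = ∑ I ∈ T.erase ⊥, nrm K s I := by
      symm
      apply Finset.sum_erase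
      exact nrm_bot K (by linarith)
    rw [h1]
    obtain ⟨S, hS, hle⟩ := sum_le_prod K hs (T.erase ⊥) fun I hI => (Finset.mem_erase.1 hI).1
    refine hle.trans ?_
    have h2 : ∏ v ∈ S, (1 - nrm K s v)⁻¹ = Real.exp (∑ v ∈ S, -Real.log (1 - nrm K s v)) := by
      rw [Real.exp_sum]
      refine Finset.prod_congr rfl fun v hv => ?_
      have := nrm_le_half K hs (hS v hv)
      rw [Real.exp_neg, Real.exp_log (by linarith)]
    rw [h2, Real.exp_le_exp]
    calc ∑ v ∈ S, -Real.log (1 - nrm K s v) ≤ ∑ v ∈ S, (nrm K s v + 2 * nrm K s v ^ 2) :=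
          Finset.sum_le_sum fun v hv => neg_log_le (nrm_nonneg K s v) (nrm_le_half K hs (hS v hv))
      _ = ∑ v ∈ S, nrm K s v + 2 * ∑ v ∈ S, nrm K s v ^ 2 := by
          rw [Finset.sum_add_distrib, Finset.mul_sum]
      _ ≤ sS K (PP K) s + 2 * Zr K 2 := by
          have h3 := le_sS K hs (PP K) S hS
          have h4 := sum_sq_le K hs S
          linarith
  calc Real.log (Zr K s) ≤ Real.log (Real.exp (sS K (PP K) s + 2 * Zr K 2)) :=
        Real.log_le_log (by linarith [one_le_Zr K hs]) hZ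
    _ = _ := Real.log_exp _

/-- `log Zr(s) = log (1/(s-1)) + O(1)` on `(1,2)` -/
theorem log_Zr : ∃ C : ℝ, ∀ s : ℝ, 1 < s → s < 2 → |Real.log (Zr K s) - Real.log (1 / (s - 1))| ≤ C := by
  obtain ⟨c, C, δ, hc, hC, hδ, h⟩ := Zr_near K
  set c' : ℝ := min c (min δ 1) with hc'
  set C' : ℝ := max C (Zr K (1 + min δ 1 / 2)) with hC'
  have hc'0 : 0 < c' := lt_min hc (lt_min hδ one_pos)
  have hm : 0 < min δ 1 := lt_min hδ one_pos
  have hC'0 : 0 < C' := lt_of_lt_of_le hC (le_max_left _ _)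
  have key : ∀ s : ℝ, 1 < s → s < 2 → c' / 2 ≤ (s - 1) * Zr K s ∧ (s - 1) * Zr K s ≤ C' := by
    intro s hs hs2
    have h1 := one_le_Zr K hs
    rcases lt_or_ge s (1 + min δ 1 / 2) with h2 | h2
    · have h3 := h s hs (by have := min_le_left δ 1; linarith)
      have h4 : c' ≤ c := min_le_left _ _
      have h5 : C ≤ C' := le_max_left _ _
      exact ⟨by linarith [h3.1], by linarith [h3.2]⟩
    · constructor
      · have h4 : c' ≤ min δ 1 := min_le_right _ _
        have h6 : (s - 1) * 1 ≤ (s - 1) * Zr K s := mul_le_mul_of_nonneg_left h1 (by linarith)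
        linarith
      · have h4 : Zr K s ≤ Zr K (1 + min δ 1 / 2) := Zr_anti K (by linarith) h2
        have h5 : Zr K (1 + min δ 1 / 2) ≤ C' := le_max_right _ _
        have h6 : (s - 1) * Zr K s ≤ 1 * Zr K s := mul_le_mul_of_nonneg_right (by linarith) (by linarith)
        linarith
  refine ⟨max (Real.log C') (-Real.log (c' / 2)), fun s hs hs2 => ?_⟩
  have hZ := one_le_Zr K hs
  have hs1 : 0 < s - 1 := by linarith
  have h1 : Real.log (Zr K s) - Real.log (1 / (s - 1)) = Real.log ((s - 1) * Zr K s) := by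
    rw [Real.log_mul hs1.ne' (by linarith), one_div, Real.log_inv]
    ring
  rw [h1, abs_le]
  obtain ⟨h2, h3⟩ := key s hs hs2
  constructor
  · have h4 := Real.log_le_log (by positivity) h2
    have h5 := le_max_right (Real.log C') (-Real.log (c' / 2))
    linarith
  · have h4 := Real.log_le_log (mul_pos hs1 (by linarith)) h3
    exact h4.trans (le_max_left _ _)

end Pool.Agent.H24.FD
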