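import Pool.Agent.H24.FD.Split
import Pool.Agent.H71.FD.Form
import Pool.Agent.H89.FrobD.Fields

/-!
# FD splitting, module 7: P4, the prime side of (D)

`L / ℚ` Galois without primitive cube root of unity, `K → L`, `B` a null set: the primes `p ≡ 2 mod 3` outside `B` such
that all residue degrees of `K` (and of `L`) above `p` are one have upper density at least `1/(2 [L:ℚ])`.
-/

set_option autoImplicit false

namespace Pool.Agent.H24.FD

open NumberField Filter Ideal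

open Pool.Agent.H71.FD

open Pool.Agent.H89.FrobD (pZ pZ_prime pZ_max pZ_ne_bot)

theorem liesOver_pZ (K : Type*) [Field K] [NumberField K] {p : ℕ} (hp : p.Prime) (v : Ideal (𝓞 K))
    (hv : v.IsPrime) (hmem : (p : 𝓞 K) ∈ v) : v.LiesOver (pZ p) := by
  constructor
  refine (pZ_max hp).eq_of_le ?_ ?_
  · exact Ideal.IsPrime.ne_top inferInstance
  · rw [Ideal.span_singleton_le_iff_mem, Ideal.under_def, Ideal.mem_comap]
    simpa using hmem

/-- one place of degree one in a Galois field: all degrees are one -/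
theorem deg_one_gal (L : Type*) [Field L] [NumberField L] [IsGalois ℚ L] {p : ℕ} (hp : p.Prime)
    (h : Nonempty (𝓞 L →+* ZMod p)) (Q : Ideal (𝓞 L)) (hQ : Q.IsPrime) (hmem : (p : 𝓞 L) ∈ Q) :
    Q.inertiaDeg ℤ = 1 := by
  have hpf : Fact p.Prime := ⟨hp⟩
  obtain ⟨φ⟩ := h
  have hn := ker_norm L p φ
  have hP : (RingHom.ker φ).IsPrime := RingHom.ker_isPrime φ
  have hPm : (p : 𝓞 L) ∈ RingHom.ker φ := by
    rw [RingHom.mem_ker, map_natCast, ZMod.natCast_self]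
  have hl1 := liesOver_pZ L hp _ hP hPm
  have hl2 := liesOver_pZ L hp Q hQ hmem
  have hpp := pZ_prime hp
  have h1 : Q.inertiaDeg ℤ = (RingHom.ker φ).inertiaDeg ℤ :=
    Ideal.inertiaDeg_eq_of_isGaloisGroup (pZ p) Q (RingHom.ker φ) Gal(L/ℚ)
  rw [h1]
  have h2 := Ideal.pow_inertiaDeg p (RingHom.ker φ)
  rw [hn] at h2
  exact Nat.pow_right_injective hp.two_le (by simpa using h2)

/-- the same for subfields -/
theorem deg_one_sub (L : Type*) [Field L] [NumberField L] [IsGalois ℚ L] (K : Type*) [Field K] [NumberField K]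
    (σ₀ : K →ₐ[ℚ] L) {p : ℕ} (hp : p.Prime) (h : Nonempty (𝓞 L →+* ZMod p)) (v : Ideal (𝓞 K))
    (hv : v.IsPrime) (hmem : (p : 𝓞 K) ∈ v) : v.inertiaDeg ℤ = 1 := by
  let _ : Algebra K L := σ₀.toRingHom.toAlgebra
  have hne : v ≠ ⊥ := by
    intro h0
    rw [h0, Ideal.mem_bot, Nat.cast_eq_zero] at hmem
    exact hp.ne_zero hmem
  obtain ⟨Q, hQ, hQv⟩ := (inferInstance : Nonempty (v.primesOver (𝓞 L)))
  have hQm : (p : 𝓞 L) ∈ Q := by
    have h1 : (p : 𝓞 K) ∈ Q.under (𝓞 K) := by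
      rw [← Ideal.over_def Q v]
      exact hmem
    rw [Ideal.under_def, Ideal.mem_comap, map_natCast] at h1
    exact h1
  have h1 := deg_one_gal L hp h Q hQ hQm
  have h2 := Ideal.inertiaDeg_tower (R := ℤ) v Q
  rw [h1] at h2
  exact Nat.eq_one_of_mul_eq_one_right h2.symm

/-- **P4**: prime side of (D) -/
theorem split_upper {L : Type*} [Field L] [NumberField L] [IsGalois ℚ L] {K : Type*} [Field K] [NumberField K]
    (σ₀ : K →ₐ[ℚ] L) (hω : ∀ w : L, w ^ 2 + w + 1 ≠ 0) {B : ℕ → Prop} (hB : Null B) :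
    ∀ ε : ℝ, 0 < ε → ∀ x₀ : ℕ, ∃ x : ℕ, x₀ ≤ x ∧
      (1 / (2 * (Module.finrank ℚ L : ℝ)) - ε) * (x / Real.log x) ≤
        ({p : ℕ | p.Prime ∧ p ≤ x ∧ p ∈ {p : ℕ | ¬ B p ∧ p % 3 = 2 ∧
          ∀ v : IsDedekindDomain.HeightOneSpectrum (𝓞 K), (p : 𝓞 K) ∈ v.asIdeal →
            v.asIdeal.inertiaDeg ℤ = 1}}.ncard : ℝ) := by
  refine upper_of_not_UD _ (fun p => (p % 3 = 2 ∧ Nonempty (𝓞 L →+* ZMod p)) ∧ ¬ B p) _
    (fun e he => p2_UD L hω hB he) ?_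
  rintro p hp ⟨⟨h1, h2⟩, h3⟩
  refine ⟨h3, h1, fun v hv => ?_⟩
  exact deg_one_sub L K σ₀ hp h2 v.asIdeal v.isPrime hv

/-- prime side for P2: a place of degree one and `p ≡ 2 mod 3` -/
theorem one_upper {F : Type*} [Field F] [NumberField F] (hω : ∀ w : F, w ^ 2 + w + 1 ≠ 0)
    {B : ℕ → Prop} (hB : Null B) :
    ∀ ε : ℝ, 0 < ε → ∀ x₀ : ℕ, ∃ x : ℕ, x₀ ≤ x ∧
      (1 / (2 * (Module.finrank ℚ F : ℝ)) - ε) * (x / Real.log x) ≤
        ({p : ℕ | p.Prime ∧ p ≤ x ∧ p ∈ {p : ℕ | ¬ B p ∧ p % 3 = 2 ∧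
          ∃ v : IsDedekindDomain.HeightOneSpectrum (𝓞 F), (p : 𝓞 F) ∈ v.asIdeal ∧
            v.asIdeal.inertiaDeg ℤ = 1}}.ncard : ℝ) := by
  refine upper_of_not_UD _ (fun p => (p % 3 = 2 ∧ Nonempty (𝓞 F →+* ZMod p)) ∧ ¬ B p) _
    (fun e he => p2_UD F hω hB he) ?_
  rintro p hp ⟨⟨h1, h2⟩, h3⟩
  refine ⟨h3, h1, ?_⟩
  have hpf : Fact p.Prime := ⟨hp⟩
  obtain ⟨φ⟩ := h2
  have hn := ker_norm F p φ
  have hP : (RingHom.ker φ).IsPrime := RingHom.ker_isPrime φ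
  have hPm : (p : 𝓞 F) ∈ RingHom.ker φ := by
    rw [RingHom.mem_ker, map_natCast, ZMod.natCast_self]
  have hl1 := liesOver_pZ F hp _ hP hPm
  have hne : RingHom.ker φ ≠ ⊥ := by
    intro h0
    rw [h0, Ideal.mem_bot, Nat.cast_eq_zero] at hPm
    exact hp.ne_zero hPm
  refine ⟨⟨RingHom.ker φ, hP, hne⟩, hPm, ?_⟩
  have h4 := Ideal.pow_inertiaDeg p (RingHom.ker φ)
  rw [hn] at h4
  exact Nat.pow_right_injective hp.two_le (by simpa using h4)

end Pool.Agent.H24.FD
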