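import Pool.Agent.H24.FD.DegOne

/-!
# FD splitting, module 5: adjoining a primitive cube root of unity

For a number field `F` without primitive cube root of unity and a prime `p ≡ 1 mod 3`,
`2 * np F p ≤ np F(ω) p`.
-/

set_option autoImplicit false

set_option linter.unusedSectionVars false

namespace Pool.Agent.H24.FD

open NumberField

variable (F : Type*) [Field F] [NumberField F]

/-- `F(ω)` -/
abbrev Q3 : Type _ := QuadraticAlgebra F (-1) (-1)

omit [NumberField F] in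
theorem q3_fact (h : ∀ x : F, x ^ 2 + x + 1 ≠ 0) : Fact (∀ r : F, r ^ 2 ≠ (-1) + (-1) * r) :=
  ⟨fun r hr => h r (by rw [hr]; ring)⟩

section

variable [hF : Fact (∀ r : F, r ^ 2 ≠ (-1) + (-1) * r)]

theorem q3_charZero : CharZero (Q3 F) :=
  charZero_of_injective_algebraMap (R := F) (A := Q3 F) (QuadraticAlgebra.algebraMap_injective)

theorem q3_numberField : NumberField (Q3 F) := by
  have h0 := q3_charZero F
  have h1 : Module.Finite F (Q3 F) := inferInstance
  have h2 : Module.Finite ℚ (Q3 F) := Module.Finite.trans F (Q3 F)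
  exact { to_charZero := h0, to_finiteDimensional := h2 }

omit [NumberField F] in
theorem q3_star_int (z : Q3 F) (hz : IsIntegral ℤ z) : IsIntegral ℤ (star z) :=
  map_isIntegral_int (starRingEnd (Q3 F)) hz

omit [NumberField F] in
theorem q3_omega_int : IsIntegral ℤ (⟨0, 1⟩ : Q3 F) := by
  refine ⟨Polynomial.X ^ 2 + Polynomial.X + 1, ?_, ?_⟩
  · monicity!
  · simp only [Polynomial.eval₂_add, Polynomial.eval₂_pow, Polynomial.eval₂_X, Polynomial.eval₂_one]
    ext <;> simp [pow_two, QuadraticAlgebra.re_one, QuadraticAlgebra.im_one]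

omit [NumberField F] in
/-- the trace is integral -/
theorem q3_trace_int (z : Q3 F) (hz : IsIntegral ℤ z) : IsIntegral ℤ (2 * z.re - z.im) := by
  have h1 : IsIntegral ℤ (z + star z) := hz.add (q3_star_int F z hz)
  have h2 : z + star z = algebraMap F (Q3 F) (2 * z.re - z.im) := by
    rw [QuadraticAlgebra.algebraMap_eq]
    ext
    · simp; ring
    · simp
  rw [h2] at h1
  exact (isIntegral_algebraMap_iff (QuadraticAlgebra.algebraMap_injective)).1 h1

omit [NumberField F] in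
theorem q3_re_int (z : Q3 F) (hz : IsIntegral ℤ z) : IsIntegral ℤ (3 * z.re) ∧ IsIntegral ℤ (3 * z.im) := by
  have h1 := q3_trace_int F z hz
  have h2 := q3_trace_int F (⟨0, 1⟩ * z) ((q3_omega_int F).mul hz)
  have h3 : 2 * ((⟨0, 1⟩ : Q3 F) * z).re - ((⟨0, 1⟩ : Q3 F) * z).im = -z.re - z.im := by
    simp
    ring
  rw [h3] at h2
  constructor
  · have h4 : 3 * z.re = (2 * z.re - z.im) - (-z.re - z.im) := by ring
    rw [h4]
    exact h1.sub h2
  · have h4 : 3 * z.im = -(2 * z.re - z.im) - ((-z.re - z.im) + (-z.re - z.im)) := by ring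
    rw [h4]
    exact h1.neg.sub (h2.add h2)

/-- `3 re z` -/
noncomputable def qA (z : 𝓞 (Q3 F)) : 𝓞 F := ⟨3 * (z : Q3 F).re, (q3_re_int F z z.2).1⟩

/-- `3 im z` -/
noncomputable def qB (z : 𝓞 (Q3 F)) : 𝓞 F := ⟨3 * (z : Q3 F).im, (q3_re_int F z z.2).2⟩

omit [NumberField F] in
theorem qA_coe (z : 𝓞 (Q3 F)) :
    algebraMap (𝓞 F) F (qA F z) = 3 * (algebraMap (𝓞 (Q3 F)) (Q3 F) z).re := rfl

omit [NumberField F] in
theorem qB_coe (z : 𝓞 (Q3 F)) :
    algebraMap (𝓞 F) F (qB F z) = 3 * (algebraMap (𝓞 (Q3 F)) (Q3 F) z).im := rfl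

omit [NumberField F] hF in
theorem am3 : algebraMap (𝓞 F) F 3 = 3 := map_ofNat _ 3

theorem qA_one : qA F 1 = 3 := by
  apply RingOfIntegers.coe_injective
  rw [qA_coe, map_one, am3, QuadraticAlgebra.re_one, mul_one]

theorem qB_one : qB F 1 = 0 := by
  apply RingOfIntegers.coe_injective
  rw [qB_coe, map_one, map_zero, QuadraticAlgebra.im_one, mul_zero]

theorem qA_zero : qA F 0 = 0 := by
  apply RingOfIntegers.coe_injective
  rw [qA_coe]
  simp

theorem qB_zero : qB F 0 = 0 := by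
  apply RingOfIntegers.coe_injective
  rw [qB_coe]
  simp

theorem qA_add (z w : 𝓞 (Q3 F)) : qA F (z + w) = qA F z + qA F w := by
  apply RingOfIntegers.coe_injective
  rw [map_add, qA_coe, qA_coe, qA_coe]
  simp
  ring

theorem qB_add (z w : 𝓞 (Q3 F)) : qB F (z + w) = qB F z + qB F w := by
  apply RingOfIntegers.coe_injective
  rw [map_add, qB_coe, qB_coe, qB_coe]
  simp
  ring

theorem qA_mul (z w : 𝓞 (Q3 F)) : 3 * qA F (z * w) = qA F z * qA F w - qB F z * qB F w := by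
  apply RingOfIntegers.coe_injective
  rw [map_sub, map_mul, map_mul, map_mul, qA_coe, qA_coe, qA_coe, qB_coe, qB_coe, am3]
  simp
  ring

theorem qB_mul (z w : 𝓞 (Q3 F)) :
    3 * qB F (z * w) = qA F z * qB F w + qB F z * qA F w - qB F z * qB F w := by
  apply RingOfIntegers.coe_injective
  rw [map_sub, map_add, map_mul, map_mul, map_mul, map_mul, qA_coe, qA_coe, qB_coe, qB_coe, qB_coe, am3]
  simp
  ring

/-- the extension of a homomorphism -/
noncomputable def qext (p : ℕ) [Fact p.Prime] (h3 : (3 : ZMod p) ≠ 0) (ζ : ZMod p) (hζ : ζ ^ 2 + ζ + 1 = 0)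
    (φ : 𝓞 F →+* ZMod p) : 𝓞 (Q3 F) →+* ZMod p where
  toFun z := (φ (qA F z) + φ (qB F z) * ζ) * 3⁻¹
  map_one' := by
    rw [qA_one, qB_one, map_zero, map_ofNat, zero_mul, add_zero, mul_inv_cancel₀ h3]
  map_zero' := by
    rw [qA_zero, qB_zero, map_zero]
    ring
  map_add' z w := by
    rw [qA_add, qB_add, map_add, map_add]
    ring
  map_mul' z w := by
    have h1 := congrArg φ (qA_mul F z w)
    have h2 := congrArg φ (qB_mul F z w)
    rw [map_mul, map_ofNat, map_sub, map_mul, map_mul] at h1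
    rw [map_mul, map_ofNat, map_sub, map_add, map_mul, map_mul, map_mul] at h2
    have h4 : φ (qA F (z * w)) = (φ (qA F z) * φ (qA F w) - φ (qB F z) * φ (qB F w)) * 3⁻¹ := by
      rw [← h1]
      field_simp
    have h5 : φ (qB F (z * w)) = (φ (qA F z) * φ (qB F w) + φ (qB F z) * φ (qA F w) -
        φ (qB F z) * φ (qB F w)) * 3⁻¹ := by
      rw [← h2]
      field_simp
    rw [h4, h5]
    have h6 : ζ ^ 2 = -1 - ζ := by linear_combination hζ
    linear_combination (-(φ (qB F z) * φ (qB F w) * 3⁻¹ * 3⁻¹)) * hζ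

theorem qext_apply (p : ℕ) [Fact p.Prime] (h3 : (3 : ZMod p) ≠ 0) (ζ : ZMod p) (hζ : ζ ^ 2 + ζ + 1 = 0)
    (φ : 𝓞 F →+* ZMod p) (z : 𝓞 (Q3 F)) :
    qext F p h3 ζ hζ φ z = (φ (qA F z) + φ (qB F z) * ζ) * 3⁻¹ := rfl

/-- `ω` as an integer of `F(ω)` -/
noncomputable def qw : 𝓞 (Q3 F) := ⟨⟨0, 1⟩, q3_omega_int F⟩

theorem qext_w (p : ℕ) [Fact p.Prime] (h3 : (3 : ZMod p) ≠ 0) (ζ : ZMod p) (hζ : ζ ^ 2 + ζ + 1 = 0)
    (φ : 𝓞 F →+* ZMod p) : qext F p h3 ζ hζ φ (qw F) = ζ := by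
  have h1 : qA F (qw F) = 0 := by
    apply RingOfIntegers.coe_injective
    rw [qA_coe]
    simp [qw]
  have h2 : qB F (qw F) = 3 := by
    apply RingOfIntegers.coe_injective
    rw [qB_coe, am3]
    simp [qw]
  rw [qext_apply, h1, h2, map_zero, map_ofNat, zero_add]
  field_simp

/-- the inclusion of the integers -/
noncomputable def qi (x : 𝓞 F) : 𝓞 (Q3 F) :=
  ⟨⟨(x : F), 0⟩, by
    have h1 : IsIntegral ℤ (algebraMap F (Q3 F) (x : F)) :=
      (isIntegral_algebraMap_iff (QuadraticAlgebra.algebraMap_injective)).2 x.2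
    exact h1⟩

theorem qext_i (p : ℕ) [Fact p.Prime] (h3 : (3 : ZMod p) ≠ 0) (ζ : ZMod p) (hζ : ζ ^ 2 + ζ + 1 = 0)
    (φ : 𝓞 F →+* ZMod p) (x : 𝓞 F) : qext F p h3 ζ hζ φ (qi F x) = φ x := by
  have h1 : qA F (qi F x) = 3 * x := by
    apply RingOfIntegers.coe_injective
    rw [qA_coe, map_mul, am3]
    simp [qi]
  have h2 : qB F (qi F x) = 0 := by
    apply RingOfIntegers.coe_injective
    rw [qB_coe]
    simp [qi]
  rw [qext_apply, h1, h2, map_zero, map_mul, map_ofNat, zero_mul, add_zero]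
  field_simp

end

/-- a primitive cube root of unity modulo `p ≡ 1 mod 3` -/
theorem exists_zeta (p : ℕ) [hp : Fact p.Prime] (h1 : p % 3 = 1) :
    ∃ ζ : ZMod p, ζ ^ 2 + ζ + 1 = 0 := by
  have h3 : Fact (Nat.Prime 3) := ⟨Nat.prime_three⟩
  have hcard : 3 ∣ Fintype.card (ZMod p)ˣ := by
    rw [ZMod.card_units_eq_totient, Nat.totient_prime hp.out]
    omega
  obtain ⟨u, hu⟩ := exists_prime_orderOf_dvd_card 3 hcard
  refine ⟨(u : ZMod p), ?_⟩
  have hu3 : (u : ZMod p) ^ 3 = 1 := by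
    have := pow_orderOf_eq_one u
    rw [hu] at this
    rw [← Units.val_pow_eq_pow_val, this, Units.val_one]
  have hu1 : (u : ZMod p) ≠ 1 := by
    intro h
    have h2 : u = 1 := Units.ext h
    rw [h2, orderOf_one] at hu
    omega
  have hmul : ((u : ZMod p) - 1) * ((u : ZMod p) ^ 2 + u + 1) = 0 := by
    linear_combination hu3
  rcases mul_eq_zero.1 hmul with h | h
  · exact absurd (sub_eq_zero.1 h) hu1
  · exact h

theorem three_ne (p : ℕ) [hp : Fact p.Prime] (h3 : p ≠ 3) : (3 : ZMod p) ≠ 0 := by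
  intro h
  have h1 : ((3 : ℕ) : ZMod p) = 0 := by exact_mod_cast h
  rw [ZMod.natCast_eq_zero_iff] at h1
  exact h3 ((Nat.prime_dvd_prime_iff_eq hp.out Nat.prime_three).1 h1)

/-- `2 * np F p ≤ np F(ω) p` for `p ≡ 1 mod 3` -/
theorem two_np_le [hF : Fact (∀ r : F, r ^ 2 ≠ (-1) + (-1) * r)] (p : ℕ) (hp : p.Prime) (h1 : p % 3 = 1) :
    2 * np F p ≤ np (Q3 F) p := by
  have hpf : Fact p.Prime := ⟨hp⟩
  have hnf := q3_numberField F
  have h3 : (3 : ZMod p) ≠ 0 := three_ne p (by rintro rfl; omega)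
  obtain ⟨ζ, hζ⟩ := exists_zeta p h1
  have hζ' : (-1 - ζ) ^ 2 + (-1 - ζ) + 1 = 0 := by linear_combination hζ
  have hne : ζ ≠ -1 - ζ := by
    intro h
    apply h3
    have h5 : 2 * ζ + 1 = 0 := by linear_combination h
    linear_combination (4 : ZMod p) * hζ - (2 * ζ + 1) * h5
  have hf1 := np_finite F p hp
  have hf2 := np_finite (Q3 F) p hp
  have hinj : Function.Injective (fun x : (𝓞 F →+* ZMod p) × Bool =>
      if x.2 then qext F p h3 ζ hζ x.1 else qext F p h3 (-1 - ζ) hζ' x.1) := by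
    rintro ⟨φ, i⟩ ⟨ψ, j⟩ h
    have hw := congrArg (fun f : 𝓞 (Q3 F) →+* ZMod p => f (qw F)) h
    have hij : i = j := by
      cases i <;> cases j <;> simp [qext_w] at hw ⊢
      · exact hne hw.symm
      · exact hne hw
    subst hij
    have hφ : φ = ψ := by
      ext x
      have hx := congrArg (fun f : 𝓞 (Q3 F) →+* ZMod p => f (qi F x)) h
      cases i <;> simpa [qext_i] using hx
    rw [hφ]
  have h4 := Nat.card_le_card_of_injective _ hinj
  rw [Nat.card_prod] at h4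
  have h5 : Nat.card Bool = 2 := by simp
  rw [h5] at h4
  rw [np, np]
  omega

end Pool.Agent.H24.FD
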