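import Pool.Agent.H24.FD.Quad
import Pool.Agent.H24.FD.UDsum

/-!
# FD splitting, module 6: P2 and P3

**P2** `F` a number field of degree `n` without primitive cube root of unity: the primes `p ≡ 2 mod 3` with a place of
degree one of `F` above `p` have upper density at least `1/(2n)`, also after removing a null set.
**P3** any number field `K`, `k ≥ 0`: the primes `p` with at most `k` places of degree one have upper density at least
`1 - 1/(k+1)`.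
-/

set_option autoImplicit false

namespace Pool.Agent.H24.FD

open NumberField Filter

open Pool.Agent.H71.FD

/-- the term of the Dirichlet sum -/
noncomputable def tG (G : ℕ → Prop) (s : ℝ) (p : Nat.Primes) : ℝ :=
  open Classical in if G p then ((p : ℕ) : ℝ) ^ (-s) else 0

theorem dS_eq (G : ℕ → Prop) (s : ℝ) : dS G s = ∑' p : Nat.Primes, tG G s p := rfl

theorem tG_summable (G : ℕ → Prop) {s : ℝ} (hs : 1 < s) : Summable (tG G s) := dS_summable G hs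

theorem tG_pos {G : ℕ → Prop} (s : ℝ) {p : Nat.Primes} (h : G p) : tG G s p = ((p : ℕ) : ℝ) ^ (-s) :=
  if_pos h

theorem tG_neg {G : ℕ → Prop} (s : ℝ) {p : Nat.Primes} (h : ¬ G p) : tG G s p = 0 := if_neg h

theorem tG_nonneg (G : ℕ → Prop) (s : ℝ) (p : Nat.Primes) : 0 ≤ tG G s p := by
  by_cases h : G p
  · rw [tG_pos s h]
    exact Real.rpow_nonneg (Nat.cast_nonneg _) _
  · rw [tG_neg s h]

theorem dS_three {s : ℝ} (hs : 1 < s) : dS (fun q : ℕ => q = 3) s ≤ 1 := by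
  rw [dS_eq]
  apply Real.tsum_le_of_sum_le (fun p => tG_nonneg _ _ _)
  intro S
  obtain ⟨T, hT⟩ : ∃ T : ℕ → Prop, T = fun q => q = 3 := ⟨_, rfl⟩
  rw [← hT]
  obtain ⟨q3, hq3⟩ : ∃ q : Nat.Primes, (q : ℕ) = 3 := ⟨⟨3, Nat.prime_three⟩, rfl⟩
  have h0 : (3 : ℝ) ^ (-s) ≤ 1 := Real.rpow_le_one_of_one_le_of_nonpos (by norm_num) (by linarith)
  have h1 : ∑ p ∈ S, tG T s p = ∑ p ∈ S, (if p = q3 then (3 : ℝ) ^ (-s) else 0) := by
    refine Finset.sum_congr rfl fun p _ => ?_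
    by_cases hp : p = q3
    · have h2 : T p := by
        rw [hT, hp]
        exact hq3
      rw [if_pos hp, tG_pos s h2, hp, hq3]
      norm_num
    · rw [if_neg hp]
      apply tG_neg
      rw [hT]
      intro h5
      exact hp (Subtype.ext (h5.trans hq3.symm))
  rw [h1, Finset.sum_ite_eq']
  split_ifs
  · exact h0
  · exact zero_le_one

/-- the pointwise inequality behind P2 -/
theorem p2_point (F : Type*) [Field F] [NumberField F] [hF : Fact (∀ r : F, r ^ 2 ≠ (-1) + (-1) * r)]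
    (s : ℝ) (p : Nat.Primes) : (np F p : ℝ) * ((p : ℕ) : ℝ) ^ (-s) ≤
      (1 / 2) * ((np (Q3 F) p : ℝ) * ((p : ℕ) : ℝ) ^ (-s)) +
        ((Module.finrank ℚ F : ℝ) * tG (fun p => p % 3 = 2 ∧ 0 < np F p) s p +
          (Module.finrank ℚ F : ℝ) * tG (fun q : ℕ => q = 3) s p) := by
  obtain ⟨G, hG⟩ : ∃ G : ℕ → Prop, G = fun p => p % 3 = 2 ∧ 0 < np F p := ⟨_, rfl⟩
  obtain ⟨T, hT⟩ : ∃ T : ℕ → Prop, T = fun q => q = 3 := ⟨_, rfl⟩
  rw [← hG, ← hT]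
  obtain ⟨x, hxe⟩ : ∃ x : ℝ, x = ((p : ℕ) : ℝ) ^ (-s) := ⟨_, rfl⟩
  have hp : (p : ℕ).Prime := p.2
  have hx : 0 ≤ x := by
    rw [hxe]
    exact Real.rpow_nonneg (Nat.cast_nonneg _) _
  have hnp : (np F p : ℝ) ≤ (Module.finrank ℚ F : ℝ) := by
    exact_mod_cast np_le F p hp
  have hn0 : (0 : ℝ) ≤ (Module.finrank ℚ F : ℝ) := Nat.cast_nonneg _
  have hnp0 : (0 : ℝ) ≤ np F p := Nat.cast_nonneg _
  have hnq0 : (0 : ℝ) ≤ np (Q3 F) p := Nat.cast_nonneg _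
  rw [← hxe]
  have hnx : (np F p : ℝ) * x ≤ (Module.finrank ℚ F : ℝ) * x := mul_le_mul_of_nonneg_right hnp hx
  have hnq : 0 ≤ (1 / 2) * ((np (Q3 F) p : ℝ) * x) := by positivity
  have hg0 : 0 ≤ (Module.finrank ℚ F : ℝ) * tG G s p := mul_nonneg hn0 (tG_nonneg _ _ _)
  have ht0 : 0 ≤ (Module.finrank ℚ F : ℝ) * tG T s p := mul_nonneg hn0 (tG_nonneg _ _ _)
  have hcases : (p : ℕ) % 3 = 0 ∨ (p : ℕ) % 3 = 1 ∨ (p : ℕ) % 3 = 2 := by omega
  rcases hcases with h0 | h0 | h0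
  · have hp3 : T p := by
      have h3 : 3 ∣ (p : ℕ) := Nat.dvd_of_mod_eq_zero h0
      rw [hT]
      exact ((Nat.prime_dvd_prime_iff_eq Nat.prime_three hp).1 h3).symm
    rw [tG_pos s hp3, ← hxe]
    linarith
  · have h5 := two_np_le F p hp h0
    have h6 : (2 : ℝ) * np F p ≤ np (Q3 F) p := by exact_mod_cast h5
    have h7 : (2 : ℝ) * np F p * x ≤ np (Q3 F) p * x := mul_le_mul_of_nonneg_right h6 hx
    linarith
  · rcases Nat.eq_zero_or_pos (np F p) with h8 | h8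
    · have h9 : (np F p : ℝ) * x = 0 := by rw [h8, Nat.cast_zero, zero_mul]
      linarith
    · have h9 : G p := by
        rw [hG]
        exact ⟨h0, h8⟩
      rw [tG_pos s h9, ← hxe]
      linarith

/-- P2, Dirichlet sum -/
theorem p2_sum (F : Type*) [Field F] [NumberField F] (h : ∀ x : F, x ^ 2 + x + 1 ≠ 0) :
    ∃ C : ℝ, ∀ s : ℝ, 1 < s → s < 2 →
      1 / (2 * (Module.finrank ℚ F : ℝ)) * Real.log (1 / (s - 1)) - C ≤
        dS (fun p => p % 3 = 2 ∧ 0 < np F p) s := by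
  have hfact := q3_fact F h
  have hnf := q3_numberField F
  obtain ⟨C1, h1⟩ := np_sum F
  obtain ⟨C2, h2⟩ := np_sum (Q3 F)
  obtain ⟨n, hn⟩ : ∃ n : ℝ, n = (Module.finrank ℚ F : ℝ) := ⟨_, rfl⟩
  have hn0 : 0 < n := by
    rw [hn]
    exact_mod_cast Module.finrank_pos
  rw [← hn]
  refine ⟨(C1 + C2 / 2) / n + 1, fun s hs hs2 => ?_⟩
  have hle := fun p : Nat.Primes => p2_point F s p
  rw [← hn] at hle
  have hS1 := np_summable F hs
  have hS2 := np_summable (Q3 F) hs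
  have hS3 := tG_summable (fun p => p % 3 = 2 ∧ 0 < np F p) hs
  have hS4 := tG_summable (fun q : ℕ => q = 3) hs
  have hsum := hS1.tsum_le_tsum hle ((hS2.mul_left _).add ((hS3.mul_left _).add (hS4.mul_left _)))
  rw [(hS2.mul_left _).tsum_add ((hS3.mul_left _).add (hS4.mul_left _)),
    (hS3.mul_left _).tsum_add (hS4.mul_left _), tsum_mul_left, tsum_mul_left, tsum_mul_left,
    ← dS_eq, ← dS_eq] at hsum
  have h3 := dS_three hs
  have h4 := (abs_le.1 (h1 s hs hs2)).1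
  have h5 := (abs_le.1 (h2 s hs hs2)).2
  obtain ⟨d, hd⟩ : ∃ d : ℝ, d = dS (fun p => p % 3 = 2 ∧ 0 < np F p) s := ⟨_, rfl⟩
  rw [← hd] at hsum ⊢
  have h6 : n * dS (fun q : ℕ => q = 3) s ≤ n * 1 := mul_le_mul_of_nonneg_left h3 hn0.le
  have h7 : 1 / 2 * Real.log (1 / (s - 1)) - (C1 + C2 / 2) - n ≤ n * d := by linarith
  have h8 : (1 / (2 * n) * Real.log (1 / (s - 1)) - ((C1 + C2 / 2) / n + 1)) * n =
      1 / 2 * Real.log (1 / (s - 1)) - (C1 + C2 / 2) - n := by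
    field_simp
    ring
  have h9 : (1 / (2 * n) * Real.log (1 / (s - 1)) - ((C1 + C2 / 2) / n + 1)) * n ≤ d * n := by
    rw [h8]
    linarith
  exact le_of_mul_le_mul_right h9 hn0

/-- **P2** -/
theorem p2 (F : Type*) [Field F] [NumberField F] (h : ∀ x : F, x ^ 2 + x + 1 ≠ 0) {B : ℕ → Prop}
    (hB : Null B) (N : ℕ) : ∃ p, N < p ∧ p.Prime ∧ (p % 3 = 2 ∧ Nonempty (𝓞 F →+* ZMod p)) ∧ ¬ B p := by
  have hn0 : (0 : ℝ) < Module.finrank ℚ F := by exact_mod_cast Module.finrank_pos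
  obtain ⟨p, h1, h2, h3, h4⟩ := exists_of_sum (by positivity) (p2_sum F h) hB N
  refine ⟨p, h1, h2, ⟨h3.1, ?_⟩, h4⟩
  exact (Nat.card_pos_iff.1 h3.2).1

/-- **P2**, upper density at least `1/(2n)` -/
theorem p2_UD (F : Type*) [Field F] [NumberField F] (h : ∀ x : F, x ^ 2 + x + 1 ≠ 0) {B : ℕ → Prop}
    (hB : Null B) {e : ℝ} (he : e < 1 / (2 * (Module.finrank ℚ F : ℝ))) :
    ¬ UD (fun p => (p % 3 = 2 ∧ Nonempty (𝓞 F →+* ZMod p)) ∧ ¬ B p) e := by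
  intro hU
  refine not_UD_sdiff (p2_sum F h) hB he (UD.mono hU (fun p _ hp => ?_) le_rfl)
  exact ⟨⟨hp.1.1, (Nat.card_pos_iff.1 hp.1.2).1⟩, hp.2⟩

/-- the primes: lower bound for the Dirichlet sum -/
theorem prime_sum_ge : ∃ C : ℝ, ∀ s : ℝ, 1 < s → s < 2 →
    Real.log (1 / (s - 1)) - C ≤ ∑' p : Nat.Primes, ((p : ℕ) : ℝ) ^ (-s) := by
  obtain ⟨C, h⟩ := np_sum ℚ
  refine ⟨C, fun s hs hs2 => ?_⟩
  have h1 := (abs_le.1 (h s hs hs2)).1
  have h2 : ∑' p : Nat.Primes, (np ℚ p : ℝ) * ((p : ℕ) : ℝ) ^ (-s) ≤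
      ∑' p : Nat.Primes, ((p : ℕ) : ℝ) ^ (-s) := by
    refine (np_summable ℚ hs).tsum_le_tsum (fun p => ?_) (prime_summable hs)
    have h3 : np ℚ p ≤ 1 := by
      have := np_le ℚ p p.2
      rwa [Module.finrank_self] at this
    have h4 : (np ℚ p : ℝ) ≤ 1 := by exact_mod_cast h3
    have hx : 0 ≤ ((p : ℕ) : ℝ) ^ (-s) := Real.rpow_nonneg (Nat.cast_nonneg _) _
    calc (np ℚ p : ℝ) * ((p : ℕ) : ℝ) ^ (-s) ≤ 1 * ((p : ℕ) : ℝ) ^ (-s) := mul_le_mul_of_nonneg_right h4 hx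
      _ = _ := one_mul _
  linarith

theorem p3_point (K : Type*) [Field K] [NumberField K] (k : ℕ) (s : ℝ) (p : Nat.Primes) :
    ((p : ℕ) : ℝ) ^ (-s) ≤ tG (fun p => np K p ≤ k) s p +
        1 / ((k : ℝ) + 1) * ((np K p : ℝ) * ((p : ℕ) : ℝ) ^ (-s)) := by
  obtain ⟨G, hG⟩ : ∃ G : ℕ → Prop, G = fun p => np K p ≤ k := ⟨_, rfl⟩
  rw [← hG]
  obtain ⟨x, hxe⟩ : ∃ x : ℝ, x = ((p : ℕ) : ℝ) ^ (-s) := ⟨_, rfl⟩
  have hx : 0 ≤ x := by
    rw [hxe]
    exact Real.rpow_nonneg (Nat.cast_nonneg _) _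
  rw [← hxe]
  have hk : (0 : ℝ) < (k : ℝ) + 1 := by positivity
  by_cases hp : G p
  · rw [tG_pos s hp, ← hxe]
    have : 0 ≤ 1 / ((k : ℝ) + 1) * ((np K p : ℝ) * x) := by positivity
    linarith
  · rw [tG_neg s hp, zero_add]
    have h3 : k + 1 ≤ np K p := by
      rw [hG] at hp
      omega
    have h4 : (k : ℝ) + 1 ≤ np K p := by exact_mod_cast h3
    have h5 : ((k : ℝ) + 1) * x ≤ np K p * x := mul_le_mul_of_nonneg_right h4 hx
    calc x = 1 / ((k : ℝ) + 1) * (((k : ℝ) + 1) * x) := by field_simp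
      _ ≤ _ := mul_le_mul_of_nonneg_left h5 (by positivity)

/-- P3, Dirichlet sum -/
theorem p3_sum (K : Type*) [Field K] [NumberField K] (k : ℕ) :
    ∃ C : ℝ, ∀ s : ℝ, 1 < s → s < 2 →
      (1 - 1 / ((k : ℝ) + 1)) * Real.log (1 / (s - 1)) - C ≤ dS (fun p => np K p ≤ k) s := by
  obtain ⟨C1, h1⟩ := np_sum K
  obtain ⟨C2, h2⟩ := prime_sum_ge
  refine ⟨C2 + C1 / ((k : ℝ) + 1), fun s hs hs2 => ?_⟩
  have hk : (0 : ℝ) < (k : ℝ) + 1 := by positivity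
  have hle := fun p : Nat.Primes => p3_point K k s p
  have hS1 := np_summable K hs
  have hS3 := tG_summable (fun p => np K p ≤ k) hs
  have hsum := (prime_summable hs).tsum_le_tsum hle (hS3.add (hS1.mul_left _))
  rw [hS3.tsum_add (hS1.mul_left _), tsum_mul_left, ← dS_eq] at hsum
  have h4 := h2 s hs hs2
  have h5 := (abs_le.1 (h1 s hs hs2)).2
  obtain ⟨d, hd⟩ : ∃ d : ℝ, d = dS (fun p => np K p ≤ k) s := ⟨_, rfl⟩
  rw [← hd] at hsum ⊢
  have h6 : 1 / ((k : ℝ) + 1) * (∑' p : Nat.Primes, (np K p : ℝ) * ((p : ℕ) : ℝ) ^ (-s)) ≤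
      1 / ((k : ℝ) + 1) * (Real.log (1 / (s - 1)) + C1) :=
    mul_le_mul_of_nonneg_left (by linarith) (by positivity)
  have h7 : 1 / ((k : ℝ) + 1) * (Real.log (1 / (s - 1)) + C1) =
      1 / ((k : ℝ) + 1) * Real.log (1 / (s - 1)) + C1 / ((k : ℝ) + 1) := by ring
  have h8 : (1 - 1 / ((k : ℝ) + 1)) * Real.log (1 / (s - 1)) =
      Real.log (1 / (s - 1)) - 1 / ((k : ℝ) + 1) * Real.log (1 / (s - 1)) := by ring
  linarith

/-- **P3** -/
theorem p3 (K : Type*) [Field K] [NumberField K] {k : ℕ} (hk : 1 ≤ k) {B : ℕ → Prop} (hB : Null B) (N : ℕ) :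
    ∃ p, N < p ∧ p.Prime ∧ np K p ≤ k ∧ ¬ B p := by
  have hk1 : (1 : ℝ) ≤ k := by exact_mod_cast hk
  have h0 : 0 < 1 - 1 / ((k : ℝ) + 1) := by
    have h1 : 1 / ((k : ℝ) + 1) < 1 := by
      rw [div_lt_one (by linarith)]
      linarith
    linarith
  exact exists_of_sum h0 (p3_sum K k) hB N

/-- **P3**, upper density at least `1 - 1/(k+1)` -/
theorem p3_UD (K : Type*) [Field K] [NumberField K] (k : ℕ) {B : ℕ → Prop} (hB : Null B) {e : ℝ}
    (he : e < 1 - 1 / ((k : ℝ) + 1)) : ¬ UD (fun p => np K p ≤ k ∧ ¬ B p) e :=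
  not_UD_sdiff (p3_sum K k) hB he

end Pool.Agent.H24.FD
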