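import Mathlib

/-!
# FD splitting, module 1: the real Dedekind zeta function as a sum over ideals

`Zr K s = ∑ N(I)^(-s)` over all ideals of `𝓞 K` (the zero ideal contributes `0`), summable for `s > 1`,
`(s - 1) Zr K s → ρ > 0`.
-/

set_option autoImplicit false

namespace Pool.Agent.H24.FD

open NumberField Filter Topology Ideal

open scoped nonZeroDivisors

variable (K : Type*) [Field K] [NumberField K]

/-- `N(I)^(-s)` (`0` for the zero ideal, `s ≠ 0`) -/
noncomputable def nrm (s : ℝ) (I : Ideal (𝓞 K)) : ℝ := ((absNorm I : ℕ) : ℝ) ^ (-s)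

/-- the number of ideals of norm `n` -/
noncomputable def cI (n : ℕ) : ℕ := Nat.card {I : Ideal (𝓞 K) // absNorm I = n}

/-- the sum over all ideals -/
noncomputable def Zr (s : ℝ) : ℝ := ∑' I : Ideal (𝓞 K), nrm K s I

theorem cI_zero : cI K 0 = 1 := by
  simp [cI, Ideal.absNorm_eq_zero_iff]

theorem cI_tendsto : Tendsto (fun n : ℕ => (∑ k ∈ Finset.Icc 1 n, (cI K k : ℝ)) / (n : ℝ)) atTop
    (𝓝 (dedekindZeta_residue K)) := by
  refine ((Ideal.tendsto_norm_le_div_atTop₀ K).comp tendsto_natCast_atTop_atTop).congr fun n ↦ ?_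
  simp only [Function.comp_apply, Nat.cast_le, ← Nat.cast_sum, cI]
  congr
  rw [← add_left_inj 1, ← card_norm_le_eq_card_norm_le_add_one,
    show Finset.Icc 1 n = Finset.Ioc 0 n from Finset.Icc_succ_left_eq_Ioc _ _,
    show 1 = Nat.card {I : Ideal (𝓞 K) // absNorm I = 0} by simp [Ideal.absNorm_eq_zero_iff],
    Finset.sum_Ioc_add_eq_sum_Icc (n.zero_le),
    ← Finset.card_preimage_eq_sum_card_image_eq (fun k _ ↦ finite_setOfPred_absNorm_eq k)]
  simp [Set.coe_eq_subtype]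

theorem cI_LSeriesSummable {s : ℝ} (hs : 1 < s) :
    LSeriesSummable (fun n ↦ ((cI K n : ℝ) : ℂ)) (s : ℂ) := by
  refine LSeriesSummable_of_sum_norm_bigO_and_nonneg (f := fun n => (cI K n : ℝ)) (r := 1) ?_
    (fun n => Nat.cast_nonneg _) zero_le_one (by simpa using hs)
  exact Asymptotics.isBigO_atTop_natCast_rpow_of_tendsto_div_rpow (a := dedekindZeta_residue K)
    (by simpa using cI_tendsto K)

theorem term_eq {s : ℝ} (hs : 1 < s) (n : ℕ) :
    LSeries.term (fun n ↦ ((cI K n : ℝ) : ℂ)) (s : ℂ) n = (((cI K n : ℝ) * (n : ℝ) ^ (-s) : ℝ) : ℂ) := by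
  rcases Nat.eq_zero_or_pos n with h0 | h0
  · subst h0
    rw [LSeries.term_zero, Nat.cast_zero (R := ℝ), Real.zero_rpow (by linarith), mul_zero,
      Complex.ofReal_zero]
  · rw [LSeries.term_of_ne_zero h0.ne', Complex.ofReal_mul, Complex.ofReal_cpow (Nat.cast_nonneg _),
      Complex.ofReal_neg, Complex.cpow_neg, div_eq_mul_inv, Complex.ofReal_natCast, Complex.ofReal_natCast]

theorem cI_summable {s : ℝ} (hs : 1 < s) : Summable (fun n : ℕ => (cI K n : ℝ) * (n : ℝ) ^ (-s)) := by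
  have h := cI_LSeriesSummable K hs
  have h2 : Summable (fun n : ℕ => (((cI K n : ℝ) * (n : ℝ) ^ (-s) : ℝ) : ℂ)) := by
    refine Summable.congr h fun n => ?_
    exact term_eq K hs n
  exact Complex.summable_ofReal.1 h2

theorem LSeries_eq {s : ℝ} (hs : 1 < s) :
    LSeries (fun n ↦ ((cI K n : ℝ) : ℂ)) (s : ℂ) = ((∑' n : ℕ, (cI K n : ℝ) * (n : ℝ) ^ (-s) : ℝ) : ℂ) := by
  rw [LSeries, Complex.ofReal_tsum]
  exact tsum_congr fun n => term_eq K hs n

theorem fiber_eq (s : ℝ) (n : ℕ) :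
    ∑' I : {I : Ideal (𝓞 K) // absNorm I = n}, nrm K s I.1 = (cI K n : ℝ) * (n : ℝ) ^ (-s) := by
  have h : ∀ I : {I : Ideal (𝓞 K) // absNorm I = n}, nrm K s I.1 = (n : ℝ) ^ (-s) := by
    intro I
    rw [nrm, I.2]
  rw [tsum_congr h, tsum_const, cI, nsmul_eq_mul]

theorem nrm_nonneg (s : ℝ) (I : Ideal (𝓞 K)) : 0 ≤ nrm K s I := Real.rpow_nonneg (Nat.cast_nonneg _) _

theorem summable_nrm {s : ℝ} (hs : 1 < s) : Summable (nrm K s) := by
  rw [← (Equiv.sigmaFiberEquiv (absNorm : Ideal (𝓞 K) → ℕ)).summable_iff]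
  refine (summable_sigma_of_nonneg (fun x => nrm_nonneg K s _)).2 ?_
  constructor
  · intro n
    have hf : Finite {I : Ideal (𝓞 K) // absNorm I = n} := finite_setOfPred_absNorm_eq n
    exact Summable.of_finite
  · refine Summable.congr (cI_summable K hs) fun n => ?_
    exact (fiber_eq K s n).symm

theorem Zr_eq {s : ℝ} (hs : 1 < s) : Zr K s = ∑' n : ℕ, (cI K n : ℝ) * (n : ℝ) ^ (-s) := by
  rw [Zr, ← (Equiv.sigmaFiberEquiv (absNorm : Ideal (𝓞 K) → ℕ)).tsum_eq]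
  have h1 := ((Equiv.sigmaFiberEquiv (absNorm : Ideal (𝓞 K) → ℕ)).summable_iff (f := nrm K s)).2
    (summable_nrm K hs)
  refine (h1.tsum_sigma).trans ?_
  exact tsum_congr fun n => fiber_eq K s n

theorem Zr_tendsto : Tendsto (fun s : ℝ => (s - 1) * Zr K s) (𝓝[>] 1) (𝓝 (dedekindZeta_residue K)) := by
  have h := LSeries_tendsto_sub_mul_nhds_one_of_tendsto_sum_div_and_nonneg _ (cI_tendsto K)
    (fun _ => Nat.cast_nonneg _)
  have h2 : Tendsto (fun s : ℝ => (((s - 1) * Zr K s : ℝ) : ℂ)) (𝓝[>] 1)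
      (𝓝 ((dedekindZeta_residue K : ℝ) : ℂ)) := by
    refine h.congr' ?_
    filter_upwards [self_mem_nhdsWithin] with s hs
    rw [LSeries_eq K hs, ← Zr_eq K hs]
    push_cast
    ring
  exact Filter.tendsto_ofReal_iff.1 h2

/-- two-sided bound near `1` -/
theorem Zr_near : ∃ c C δ : ℝ, 0 < c ∧ 0 < C ∧ 0 < δ ∧ ∀ s : ℝ, 1 < s → s < 1 + δ →
    c ≤ (s - 1) * Zr K s ∧ (s - 1) * Zr K s ≤ C := by
  have hr := dedekindZeta_residue_pos K
  have h1 : ∀ᶠ s in 𝓝[>] (1 : ℝ), (s - 1) * Zr K s ∈ Set.Icc (dedekindZeta_residue K / 2)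
      (2 * dedekindZeta_residue K) :=
    (Zr_tendsto K) (Icc_mem_nhds (by linarith) (by linarith))
  rw [eventually_nhdsWithin_iff, Metric.eventually_nhds_iff] at h1
  obtain ⟨δ, hδ, h2⟩ := h1
  refine ⟨dedekindZeta_residue K / 2, 2 * dedekindZeta_residue K, δ, by linarith, by linarith, hδ,
    fun s hs hs2 => ?_⟩
  exact h2 (by rw [Real.dist_eq, abs_lt]; constructor <;> linarith) hs

end Pool.Agent.H24.FD
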